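import Mathlib

/-!
Embeddings into the field of complex numbers.
-/

set_option autoImplicit false

namespace Pool.Agent.N111.QC

open Cardinal

/-- A field of characteristic zero of at most the cardinality of the continuum is isomorphic to a
subfield of `ℂ`. -/
theorem exists_embed (L : Type) [Field L] [CharZero L] (h : #L ≤ 𝔠) : Nonempty (L →+* ℂ) := by
  let P := MvPolynomial ℂ L
  let Ω := AlgebraicClosure (FractionRing P)
  have hc : #P = 𝔠 := by
    change #(MvPolynomial ℂ L) = 𝔠
    rw [MvPolynomial.cardinalMk_eq_max, Cardinal.mk_complex, max_eq_right h, max_eq_left]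
    exact aleph0_le_continuum
  have hF : #(FractionRing P) = 𝔠 := by
    rw [← hc]
    exact Cardinal.mk_fractionRing P
  have hΩ : #Ω = 𝔠 := by
    apply le_antisymm
    · refine (Algebra.IsAlgebraic.cardinalMk_le_max (FractionRing P) Ω).trans ?_
      rw [hF]
      exact max_le le_rfl aleph0_le_continuum
    · rw [← hF]
      exact Cardinal.mk_le_of_injective (algebraMap (FractionRing P) Ω).injective
  have : CharZero Ω := by
    have h1 : CharZero P := charZero_of_injective_algebraMap (R := L) (MvPolynomial.C_injective _ _)
    have h2 : CharZero (FractionRing P) :=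
      charZero_of_injective_algebraMap (IsFractionRing.injective P (FractionRing P))
    exact charZero_of_injective_algebraMap (algebraMap (FractionRing P) Ω).injective
  obtain ⟨e⟩ := IsAlgClosed.ringEquiv_of_equiv_of_charZero (K := Ω) (L := ℂ)
    (by rw [hΩ]; exact aleph0_lt_continuum)
    (Cardinal.eq.1 (by rw [hΩ, Cardinal.mk_complex]))
  exact ⟨(e : Ω →+* ℂ).comp ((algebraMap (FractionRing P) Ω).comp
    ((algebraMap P (FractionRing P)).comp (MvPolynomial.C : L →+* P)))⟩

/-- A finitely generated domain of characteristic zero is isomorphic to a finitely generated subring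
of `ℂ`. -/
theorem exists_embed_fg (R : Type) [CommRing R] [IsDomain R] [CharZero R] [Algebra.FiniteType ℤ R] :
    ∃ (ι : R →+* ℂ) (s : Set ℂ), Function.Injective ι ∧ s.Finite ∧
      ι.range = Subring.closure s := by
  classical
  have hR : #R ≤ ℵ₀ := by
    obtain ⟨n, f, hf⟩ := Algebra.FiniteType.iff_quotient_mvPolynomial''.1
      (inferInstance : Algebra.FiniteType ℤ R)
    refine (Cardinal.mk_le_of_surjective hf).trans ?_
    refine MvPolynomial.cardinalMk_le_max_lift.trans ?_
    simp
  have hF : #(FractionRing R) ≤ 𝔠 := by
    rw [Cardinal.mk_fractionRing]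
    exact hR.trans aleph0_le_continuum
  have : CharZero (FractionRing R) :=
    charZero_of_injective_algebraMap (IsFractionRing.injective R (FractionRing R))
  obtain ⟨j⟩ := exists_embed (FractionRing R) hF
  obtain ⟨s, hs⟩ := (inferInstance : Algebra.FiniteType ℤ R).out
  let ι : R →+* ℂ := j.comp (algebraMap R (FractionRing R))
  refine ⟨ι, ι '' (s : Set R), j.injective.comp (IsFractionRing.injective R (FractionRing R)),
    s.finite_toSet.image _, ?_⟩
  have h1 : Subring.closure (s : Set R) = ⊤ := by
    rw [eq_top_iff]
    intro x _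
    have hx : x ∈ Algebra.adjoin ℤ (s : Set R) := by rw [hs]; trivial
    rwa [Algebra.mem_adjoin_iff, show Set.range (algebraMap ℤ R) ∪ (s : Set R) =
      Set.range (algebraMap ℤ R) ∪ s from rfl, Subring.closure_union,
      show Subring.closure (Set.range (algebraMap ℤ R)) = ⊥ from ?_, bot_sup_eq] at hx
    rw [eq_bot_iff, Subring.closure_le]
    rintro _ ⟨n, rfl⟩
    rw [eq_intCast]
    exact intCast_mem _ _
  rw [← RingHom.map_closure, h1, ← RingHom.range_eq_map]

end Pool.Agent.N111.QC
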