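import Pool.Agent.N111.QC.Def
import Pool.Agent.W602.GT.Sys

/-!
Subvarieties of the complements of the quadrics are of log general type.
-/

set_option autoImplicit false

namespace Pool.Agent.N111.QC

open MvPolynomial FF Pool.Agent.W602.GT

section

variable {k E : Type} [Field k] [IsAlgClosed k] [CharZero k] [Field E] [Algebra k E]

theorem der_smul (D : Derivation k E E) (c : k) (x : E) : D (c • x) = c • D x := D.map_smul c x

/-- units which are values of a polynomial -/
theorem lgt_units {w : ℕ} (hw : 0 < w) (htr : Algebra.trdeg k E = w) {M : ℕ} (F : Fin (M + 1) → E)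
    (h0 : F 0 = 1) (hne : ∀ l : Fin (2 * M + 1), pv F ((l : ℕ) : k) ≠ 0)
    (halg : ∀ D : Derivation k E E, (∀ i, D (F i) = 0) → D = 0) (Bd : Place k E → Prop)
    (hBd : ∀ P, ¬ Bd P → ∀ l : Fin (2 * M + 1), P.ord (pv F ((l : ℕ) : k)) = 0) :
    LogGeneralType k E w Bd := by
  classical
  set t : Fin (2 * M + 1) → k := fun l => ((l : ℕ) : k) with ht
  have htinj : Function.Injective t := fun a b h => by
    have h1 : ((a : ℕ) : k) = ((b : ℕ) : k) := h
    exact Fin.ext (by exact_mod_cast h1)
  set u : Fin (2 * M + 1) → E := fun l => pv F (t l) with hu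
  have hu0 : ∀ l, u l ≠ 0 := hne
  let Ε : Type := {c : Fin (2 * M + 1) → k // ∑ l, c l • u l = 0}
  let J : Ε → Type := fun e => {l : Fin (2 * M + 1) // e.1 l ≠ 0}
  letI : ∀ e, Fintype (J e) := fun e => Fintype.ofFinite _
  let g : ∀ e, J e → E := fun e j => e.1 j.1 • u j.1
  have hsumJ : ∀ (e : Ε) (h : Fin (2 * M + 1) → E), ∑ j : J e, h j.1 * g e j =
      ∑ l, h l * (e.1 l • u l) := by
    intro e h
    have h1 : ∑ l, h l * (e.1 l • u l) =
        ∑ l ∈ Finset.univ.filter fun l => e.1 l ≠ 0, h l * (e.1 l • u l) := by
      symm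
      refine Finset.sum_subset (Finset.subset_univ _) fun l _ hl => ?_
      have h2 : e.1 l = 0 := by
        by_contra hc
        exact hl (Finset.mem_filter.2 ⟨Finset.mem_univ _, hc⟩)
      rw [h2, zero_smul, mul_zero]
    rw [h1]
    symm
    refine Finset.sum_subtype _ (fun l => ?_) _
    simp
  rcases system hw htr g (fun e j => smul_ne_zero j.2 (hu0 _)) (fun e => by
      have h1 := hsumJ e fun _ => 1
      simp only [one_mul] at h1
      rw [h1]
      exact e.2) (s := 2 * M + 1) (fun e => by
      have h1 := Fintype.card_subtype_le (fun l : Fin (2 * M + 1) => e.1 l ≠ 0)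
      rw [Fintype.card_fin] at h1
      refine le_trans (le_of_eq ?_) h1
      exact Fintype.card_congr (Equiv.refl _)) Bd (fun P hP e i j => by
      left
      simp only [g]
      rw [ord_smul' P i.2, ord_smul' P j.2]
      exact (hBd P hP _).trans (hBd P hP _).symm) with h | ⟨D, hD0, hD⟩
  · exact h
  exfalso
  apply hD0
  apply halg
  let r : Fin (2 * M + 1) → Fin (2 * M + 1) → Prop := fun l l' => D (u l) * u l' = u l * D (u l')
  have hr : Equivalence r := by
    refine ⟨fun l => mul_comm _ _, fun {a b} h => ?_, fun {a b c} h1 h2 => ?_⟩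
    · change D (u b) * u a = u b * D (u a)
      have h' : D (u a) * u b = u a * D (u b) := h
      linear_combination -h'
    · change D (u a) * u c = u a * D (u c)
      have h1' : D (u a) * u b = u a * D (u b) := h1
      have h2' : D (u b) * u c = u b * D (u c) := h2
      apply mul_right_cancel₀ (hu0 b)
      linear_combination (u c) * h1' + (u a) * h2'
  have hall := one_class F htinj r hr hu0 (by
    intro c hc l0 A hA
    obtain ⟨R, hR, hRD, hRs⟩ := hD ⟨c, hc⟩
    have h1 := weighted_sum R hR (g ⟨c, hc⟩) (fun j => if j.1 ∈ A then (1 : E) else 0) (by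
      intro i j hij
      have h2 := hRD i j hij
      simp only [g] at h2
      rw [der_smul, der_smul] at h2
      have hci : algebraMap k E (c i.1) ≠ 0 := by
        rw [Ne, map_eq_zero]
        exact i.2
      have hcj : algebraMap k E (c j.1) ≠ 0 := by
        rw [Ne, map_eq_zero]
        exact j.2
      have h3 : r i.1 j.1 := by
        change D (u i.1) * u j.1 = u i.1 * D (u j.1)
        apply mul_left_cancel₀ (mul_ne_zero hci hcj)
        simp only [Algebra.smul_def] at h2
        linear_combination h2
      have h4 : i.1 ∈ A ↔ j.1 ∈ A := by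
        rw [hA, hA]
        exact ⟨fun h => hr.trans h h3, fun h => hr.trans h (hr.symm h3)⟩
      simp only [h4]) hRs
    have h5 := hsumJ ⟨c, hc⟩ (fun l => if l ∈ A then (1 : E) else 0)
    rw [h1] at h5
    simp only [ite_mul, one_mul, zero_mul] at h5
    rw [Finset.sum_ite_mem, Finset.univ_inter] at h5
    exact h5.symm)
  have h1 : ∀ l, D (u l) = 0 := by
    intro l
    have h2 : D (u l) * u 0 = u l * D (u 0) := hall l 0
    have h3 : u 0 = 1 := by
      have h4 : t 0 = 0 := by simp [ht]
      change pv F (t 0) = 1
      rw [h4, pv, Fin.sum_univ_succ]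
      simp [h0]
    rw [h3, mul_one, Derivation.map_one_eq_zero, mul_zero] at h2
    exact h2
  have h2 : ∀ l, pv (fun i => D (F i)) (t l) = 0 := by
    intro l
    have h3 : pv (fun i => D (F i)) (t l) = D (u l) := by
      change _ = D (∑ i : Fin (M + 1), t l ^ (i : ℕ) • F i)
      rw [map_sum]
      exact Finset.sum_congr rfl fun i _ => (der_smul D _ _).symm
    rw [h3, h1]
  exact fun i => coeff_zero _ htinj h2 i

end

section

variable {k ι σ : Type} [Field k] [IsAlgClosed k] [CharZero k] [Finite ι] [Finite σ]
  {f : ι → MvPolynomial σ k} {d : ℕ} {E : Type} [Field E] [Algebra k E]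

theorem reg_sum (P : Place k E) {S : Type} (A : Finset S) (x : S → E) (h : ∀ i ∈ A, P.Reg (x i)) :
    P.Reg (∑ i ∈ A, x i) := by
  classical
  induction A using Finset.induction_on with
  | empty => exact P.reg_zero
  | insert a A ha ih =>
    rw [Finset.sum_insert ha]
    exact P.reg_add (h _ (Finset.mem_insert_self _ _)) (ih fun i hi => h i (Finset.mem_insert_of_mem hi))

theorem reg_pow (P : Place k E) {x : E} (h : P.Reg x) (n : ℕ) : P.Reg (x ^ n) := by
  induction n with
  | zero => rw [pow_zero]; exact P.reg_one
  | succ n ih => rw [pow_succ]; exact P.reg_mul ih h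

theorem reg_aeval (P : Place k E) {J : Type} (y : J → E) (h : ∀ j, P.Reg (y j))
    (p : MvPolynomial J k) : P.Reg (aeval y p) := by
  induction p using MvPolynomial.induction_on with
  | C a => rw [aeval_C]; exact P.reg_const a
  | add p q hp hq => rw [map_add]; exact P.reg_add hp hq
  | mul_X p j hp => rw [map_mul, aeval_X]; exact P.reg_mul hp (h j)

/-- **Subvarieties are of log general type.** -/
theorem lgt (hd : 4 ≤ d) {w : ℕ} (hw : 0 < w) (htr : Algebra.trdeg k E = w) (y : Mon σ d → E)
    (hgen : IntermediateField.adjoin k (Set.range y) = ⊤)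
    (hQ : ∀ l : ℕ, 1 ≤ l → l ≤ 2 * num ι σ d → aeval y (quadric f d l) ≠ 0)
    (hne : ∃ t, aeval y (eqs f d t) ≠ 0) :
    LogGeneralType k E w fun P => (∃ α, ¬ P.Reg (y α)) ∨
      ∃ l : ℕ, 1 ≤ l ∧ l ≤ 2 * num ι σ d ∧ ¬ P.Reg (aeval y (quadric f d l))⁻¹ := by
  classical
  have hpv : ∀ l : ℕ, pv (cf (algebraMap k E) f y) ((l : ℕ) : k) = aeval y (quadric f d l) := by
    intro l
    have h1 := quadric_pv (f := f) (d := d) (algebraMap k E) y l
    rw [aeval_def, h1]
    simp only [pv, Algebra.smul_def, map_pow, map_natCast, smul_eq_mul]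
  have h00 : ∀ l : Fin (2 * num ι σ d + 1), aeval y (quadric f d l) ≠ 0 := by
    intro l
    rcases Nat.eq_zero_or_pos (l : ℕ) with h0 | h0
    · rw [← hpv, h0, Nat.cast_zero, pv, Fin.sum_univ_succ]
      simp [cf]
    · exact hQ l h0 (by omega)
  refine lgt_units hw htr (cf (algebraMap k E) f y) rfl (fun l => ?_) ?_ _ (fun P hP l => ?_)
  · rw [hpv]
    exact h00 l
  · intro D hD
    have hDt : ∀ t, D (aeval y (eqs f d t)) = 0 := by
      intro t
      have h1 := hD ((enum ι σ d).symm t).succ
      change D (eval₂ _ y (eqs f d (enum ι σ d ((enum ι σ d).symm t)))) = 0 at h1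
      rw [Equiv.apply_symm_apply] at h1
      exact h1
    -- the subfield of the constants of `D`
    let L0 : Subfield E :=
      { carrier := {x | D x = 0}
        mul_mem' := fun {a b} ha hb => by
          change D (a * b) = 0
          rw [D.leibniz, show D a = 0 from ha, show D b = 0 from hb, smul_zero, smul_zero, add_zero]
        one_mem' := D.map_one_eq_zero
        add_mem' := fun {a b} ha hb => by
          change D (a + b) = 0
          rw [map_add, show D a = 0 from ha, show D b = 0 from hb, add_zero]
        zero_mem' := map_zero D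
        neg_mem' := fun {a} ha => by
          change D (-a) = 0
          rw [map_neg, show D a = 0 from ha, neg_zero]
        inv_mem' := fun a ha => by
          change D a⁻¹ = 0
          rw [D.leibniz_inv, show D a = 0 from ha, smul_zero] }
    have hmem : ∀ x : E, x ∈ L0 ↔ D x = 0 := fun x => Iff.rfl
    have halg : ∀ α, D (y α) = 0 := by
      intro α
      obtain ⟨p, hp0, hp⟩ := fib_alg (f := f) (algebraMap k E) hd L0 y (fun t => hDt t) hne α
      -- algebraic elements over constants are constants
      let D' : Derivation L0 E E :=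
        { toFun := D
          map_add' := map_add D
          map_smul' := fun c x => by
            have hc : D (c : E) = 0 := c.2
            change D ((c : E) * x) = (c : E) * D x
            rw [D.leibniz, hc, smul_zero, add_zero, smul_eq_mul]
          map_one_eq_zero' := D.map_one_eq_zero
          leibniz' := fun a b => D.leibniz a b }
      have hint : IsAlgebraic L0 (y α) := ⟨p, hp0, hp⟩
      have : CharZero E := charZero_of_injective_algebraMap (algebraMap k E).injective
      have : CharZero L0 := (algebraMap L0 E).charZero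
      have h2 : D' (y α) = 0 := by
        have hsep : (minpoly L0 (y α)).Separable :=
          (minpoly.irreducible hint.isIntegral).separable
        have h3 := D'.map_aeval (minpoly L0 (y α)) (y α)
        rw [minpoly.aeval, map_zero] at h3
        have h4 : Polynomial.aeval (y α) (Polynomial.derivative (minpoly L0 (y α))) ≠ 0 :=
          hsep.aeval_derivative_ne_zero (minpoly.aeval _ _)
        exact (smul_eq_zero.1 h3.symm).resolve_left h4
      exact h2
    ext x
    have hx : x ∈ IntermediateField.adjoin k (Set.range y) := by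
      rw [hgen]
      trivial
    change D x = 0
    induction hx using IntermediateField.adjoin_induction with
    | mem x hx =>
      obtain ⟨α, rfl⟩ := hx
      exact halg α
    | algebraMap c => exact D.map_algebraMap c
    | add x y' _ _ h1 h2 => rw [map_add, h1, h2, add_zero]
    | inv x _ h1 => rw [D.leibniz_inv, h1, smul_zero]
    | mul x y' _ _ h1 h2 => rw [D.leibniz, h1, h2, smul_zero, smul_zero, add_zero]
  · push Not at hP
    rw [hpv]
    have h1 : P.Reg (aeval y (quadric f d l)) := reg_aeval P y hP.1 _
    rcases Nat.eq_zero_or_pos (l : ℕ) with h0 | h0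
    · have h2 : aeval y (quadric f d (l : ℕ)) = 1 := by
        rw [← hpv, h0, Nat.cast_zero, pv, Fin.sum_univ_succ]
        simp [cf]
      rw [h2, P.ord_one]
    · have h2 := hP.2 l h0 (by omega)
      have h3 := h00 l
      rw [P.reg_iff h3] at h1
      rw [P.reg_iff (inv_ne_zero h3), P.ord_inv] at h2
      omega

end

end Pool.Agent.N111.QC
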