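import Mathlib

/-!
Linear Noether normalisation with integral coefficients, in terms of points.
-/

set_option autoImplicit false

namespace Pool.Agent.N111.QC

open MvPolynomial

variable {B A : Type} [CommRing B] [CommRing A] [Algebra B A]

/-- The functions `T` are integral over the functions `T'`: in terms of points, the fibres are finite
and the values of `T` are algebraic over the values of `T'`. -/
def Det {ι' ι : Type} (T' : ι' → A) (T : ι → A) : Prop :=
  ∀ (Ω : Type) [Field Ω] [Algebra B Ω], Function.Injective (algebraMap B Ω) →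
    (∀ v : ι' → Ω, {t : ι → Ω | ∃ p : A →ₐ[B] Ω, (∀ i, p (T' i) = v i) ∧
      ∀ j, p (T j) = t j}.Finite) ∧
    ∀ L0 : Subfield Ω, (∀ b, algebraMap B Ω b ∈ L0) → (∀ x, IsAlgebraic L0 x → x ∈ L0) →
      ∀ p : A →ₐ[B] Ω, (∀ i, p (T' i) ∈ L0) → ∀ j, p (T j) ∈ L0

theorem Det.trans {ι'' ι' ι : Type} {T'' : ι'' → A} {T' : ι' → A} {T : ι → A}
    (h1 : Det (B := B) T'' T') (h2 : Det (B := B) T' T) : Det (B := B) T'' T := by
  intro Ω _ _ hΩ
  refine ⟨fun v => ?_, fun L0 hB hL p hp => (h2 Ω hΩ).2 L0 hB hL p ((h1 Ω hΩ).2 L0 hB hL p hp)⟩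
  refine (((h1 Ω hΩ).1 v).biUnion fun t' _ => (h2 Ω hΩ).1 t').subset ?_
  rintro t ⟨p, hp, ht⟩
  rw [Set.mem_iUnion₂]
  exact ⟨fun i => p (T' i), ⟨p, hp, fun _ => rfl⟩, p, fun _ => rfl, ht⟩

/-- the values of `T` are given by the values of `T'` -/
theorem Det.of_fun {ι' ι : Type} {T' : ι' → A} {T : ι → A}
    (h : ∀ j, T j = 0 ∨ ∃ i, T j = T' i) : Det (B := B) T' T := by
  classical
  intro Ω _ _ _
  refine ⟨fun v => ?_, fun L0 hB hL p hp j => ?_⟩
  · refine Set.Subsingleton.finite ?_
    rintro t ⟨p, hp, ht⟩ t' ⟨p', hp', ht'⟩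
    funext j
    rw [← ht, ← ht']
    rcases h j with h | ⟨i, h⟩
    · rw [h, map_zero, map_zero]
    · rw [h, hp, hp']
  · rcases h j with h | ⟨i, h⟩
    · rw [h, map_zero]; exact zero_mem _
    · rw [h]; exact hp i

/-- the coefficient of a product of polynomials of bounded degree -/
theorem coeff_prod_le {R ι : Type} [CommRing R] (s : Finset ι) (f : ι → Polynomial R) (d : ι → ℕ)
    (h : ∀ i ∈ s, (f i).natDegree ≤ d i) :
    (∏ i ∈ s, f i).natDegree ≤ ∑ i ∈ s, d i ∧
      (∏ i ∈ s, f i).coeff (∑ i ∈ s, d i) = ∏ i ∈ s, (f i).coeff (d i) := by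
  classical
  induction s using Finset.induction_on with
  | empty => simp
  | insert a s ha ih =>
    obtain ⟨h1, h2⟩ := ih fun i hi => h i (Finset.mem_insert_of_mem hi)
    have h3 := h a (Finset.mem_insert_self _ _)
    rw [Finset.prod_insert ha, Finset.sum_insert ha, Finset.prod_insert ha]
    refine ⟨(Polynomial.natDegree_mul_le).trans (add_le_add h3 h1), ?_⟩
    rw [Polynomial.coeff_mul_add_eq_of_natDegree_le h3 h1, h2]

/-- substitution of linear polynomials -/
theorem coeff_line {R S : Type} [CommRing R] [CommRing S] {m : ℕ} (φ : R →+* S) (u c : Fin m → S)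
    (P : MvPolynomial (Fin m) R) (δ : ℕ) (hP : P.totalDegree ≤ δ) :
    (eval₂ (Polynomial.C.comp φ) (fun i => Polynomial.C (u i) + Polynomial.C (c i) * Polynomial.X)
      P).coeff δ = eval₂ φ c (homogeneousComponent δ P) := by
  classical
  have hlin : ∀ (i : Fin m) (e : ℕ), ((Polynomial.C (u i) + Polynomial.C (c i) * Polynomial.X) ^ e
      : Polynomial S).natDegree ≤ e ∧
      ((Polynomial.C (u i) + Polynomial.C (c i) * Polynomial.X) ^ e : Polynomial S).coeff e =
        c i ^ e := by
    intro i e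
    have h1 : (Polynomial.C (u i) + Polynomial.C (c i) * Polynomial.X : Polynomial S).natDegree
        ≤ 1 := by
      compute_degree
    have h2 := coeff_prod_le (Finset.range e)
      (fun _ => (Polynomial.C (u i) + Polynomial.C (c i) * Polynomial.X : Polynomial S))
      (fun _ => 1) (fun _ _ => h1)
    simp only [Finset.prod_const, Finset.card_range, Finset.sum_const, smul_eq_mul, mul_one] at h2
    refine ⟨h2.1, ?_⟩
    rw [h2.2]
    simp [Polynomial.coeff_C]
  have hmon : ∀ α : Fin m →₀ ℕ, α.degree ≤ δ →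
      (∏ i, (Polynomial.C (u i) + Polynomial.C (c i) * Polynomial.X : Polynomial S) ^ α i).coeff δ =
      if α.degree = δ then ∏ i, c i ^ α i else 0 := by
    intro α hα
    have h1 := coeff_prod_le Finset.univ
      (fun i => (Polynomial.C (u i) + Polynomial.C (c i) * Polynomial.X : Polynomial S) ^ α i)
      (fun i => α i) (fun i _ => (hlin i _).1)
    have h2 : ∑ i, α i = α.degree := (Finsupp.degree_eq_sum α).symm
    rw [h2] at h1
    split_ifs with h
    · rw [← h, h1.2]
      exact Finset.prod_congr rfl fun i _ => (hlin i _).2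
    · exact Polynomial.coeff_eq_zero_of_natDegree_lt
        (lt_of_le_of_lt h1.1 (lt_of_le_of_ne hα h))
  rw [eval₂_eq', Polynomial.finset_sum_coeff, eval₂_eq', homogeneousComponent_apply]
  have h3 : ∀ α ∈ P.support, α.degree ≤ δ := fun α hα => by
    have h2 := le_totalDegree hα
    rw [Finsupp.degree_eq_sum]
    rw [Finsupp.sum_fintype _ _ (fun _ => rfl)] at h2
    exact h2.trans hP
  have h4 : ∀ α ∈ P.support, (((Polynomial.C.comp φ) (coeff α P) *
      ∏ i, (Polynomial.C (u i) + Polynomial.C (c i) * Polynomial.X : Polynomial S) ^ α i).coeff δ)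
      = if α.degree = δ then φ (coeff α P) * ∏ i, c i ^ α i else 0 := by
    intro α hα
    rw [RingHom.comp_apply, Polynomial.coeff_C_mul, hmon α (h3 α hα)]
    split_ifs
    · rfl
    · rw [mul_zero]
  rw [Finset.sum_congr rfl h4, ← Finset.sum_filter]
  have h5 : (∑ x ∈ P.support with x.degree = δ, monomial x (coeff x P)).support =
      P.support.filter fun x => x.degree = δ := by
    rw [← homogeneousComponent_apply]
    ext α
    simp [coeff_homogeneousComponent, mem_support_iff, and_comm]
  rw [h5]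
  refine Finset.sum_congr rfl fun α hα => ?_
  rw [← homogeneousComponent_apply, coeff_homogeneousComponent, if_pos (Finset.mem_filter.1 hα).2]

/-- a nonzero polynomial does not vanish at some integral point -/
theorem exists_int {R : Type} [CommRing R] [IsDomain R] [CharZero R] {m : ℕ}
    (P : MvPolynomial (Fin m) R) (hP : P ≠ 0) :
    ∃ a : Fin m → ℤ, eval (fun i => ((a i : ℤ) : R)) P ≠ 0 := by
  by_contra hc
  push Not at hc
  apply hP
  refine funext_set (s := fun _ => Set.range (Int.cast : ℤ → R)) (fun _ => ?_) fun x hx => ?_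
  · exact Set.infinite_range_of_injective Int.cast_injective
  · have h1 : ∀ i, ∃ a : ℤ, (a : R) = x i := fun i => hx i (Set.mem_univ i)
    choose a ha using h1
    have h2 : x = fun i => ((a i : ℤ) : R) := funext fun i => (ha i).symm
    rw [h2, hc a, map_zero]

section step

variable [IsDomain B] [CharZero B]

/-- a step of the normalisation -/
theorem det_step {m : ℕ} (T : Fin (m + 1) → A) (P : MvPolynomial (Fin (m + 1)) B) (hP : P ≠ 0)
    (hT : aeval T P = 0) : ∃ c0 : ℤ, ∃ c : Fin m → ℤ,
      Det (B := B) (fun i => c0 • T i.succ - c i • T 0) T := by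
  classical
  set δ := P.totalDegree with hδ
  set Pδ := homogeneousComponent δ P with hPδ
  have hPδ0 : Pδ ≠ 0 := by
    intro h0
    obtain ⟨α, hα, hα'⟩ := Finset.exists_mem_eq_sup P.support
      (support_nonempty.2 hP) (fun s => s.sum fun _ e => e)
    have h1 : α.degree = δ := by
      rw [Finsupp.degree_eq_sum]
      have h2 : P.totalDegree = α.sum fun _ e => e := hα'
      rw [hδ, h2, Finsupp.sum_fintype _ _ (fun _ => rfl)]
    have h2 := congrArg (coeff α) h0
    rw [hPδ, coeff_homogeneousComponent, if_pos h1, coeff_zero] at h2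
    exact (mem_support_iff.1 hα) h2
  obtain ⟨a, ha⟩ := exists_int (Pδ * X 0) (mul_ne_zero hPδ0 (X_ne_zero _))
  rw [map_mul, eval_X] at ha
  have ha0 : ((a 0 : ℤ) : B) ≠ 0 := right_ne_zero_of_mul ha
  have ha1 : eval (fun i => ((a i : ℤ) : B)) Pδ ≠ 0 := left_ne_zero_of_mul ha
  refine ⟨a 0, fun i => a i.succ, ?_⟩
  intro Ω _ _ hΩ
  have hcz : CharZero Ω := charZero_of_injective_algebraMap hΩ
  have ha0' : ((a 0 : ℤ) : Ω) ≠ 0 := by
    have h1 : algebraMap B Ω ((a 0 : ℤ) : B) ≠ 0 := fun h => ha0 (hΩ (by rw [h, map_zero]))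
    rwa [map_intCast] at h1
  -- the polynomial of `T 0`
  let R : (Fin m → Ω) → Polynomial Ω := fun v =>
    eval₂ (Polynomial.C.comp (algebraMap B Ω)) (fun i => Polynomial.C
      ((Fin.cons 0 v : Fin (m + 1) → Ω) i / (a 0 : Ω)) +
      Polynomial.C (((a i : ℤ) : Ω) / (a 0 : Ω)) * Polynomial.X) P
  have hR0 : ∀ v, R v ≠ 0 := by
    intro v h0
    have h1 := coeff_line (algebraMap B Ω) (fun i => (Fin.cons 0 v : Fin (m + 1) → Ω) i / (a 0 : Ω))
      (fun i => ((a i : ℤ) : Ω) / (a 0 : Ω)) P δ le_rfl
    change (R v).coeff δ = _ at h1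
    rw [h0, Polynomial.coeff_zero, ← hPδ] at h1
    have h2 : eval₂ (algebraMap B Ω) (fun i => ((a i : ℤ) : Ω)) Pδ ≠ 0 := by
      have h3 : eval₂ (algebraMap B Ω) (fun i => ((a i : ℤ) : Ω)) Pδ =
          algebraMap B Ω (eval (fun i => ((a i : ℤ) : B)) Pδ) := by
        change _ = algebraMap B Ω (eval₂ (RingHom.id B) _ Pδ)
        rw [hom_eval₂, RingHom.comp_id]
        congr 1
        funext i
        exact (map_intCast (algebraMap B Ω) (a i)).symm
      rw [h3]
      exact fun h => ha1 (hΩ (by rw [h, map_zero]))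
    have h4 : eval₂ (algebraMap B Ω) (fun i => ((a i : ℤ) : Ω)) Pδ =
        (a 0 : Ω) ^ δ * eval₂ (algebraMap B Ω) (fun i => ((a i : ℤ) : Ω) / (a 0 : Ω)) Pδ := by
      have h5 : (fun i => ((a i : ℤ) : Ω)) = fun i => (a 0 : Ω) * (((a i : ℤ) : Ω) / (a 0 : Ω)) := by
        funext i
        field_simp
      rw [h5]
      have h6 := (homogeneousComponent_isHomogeneous δ P)
      rw [← hPδ] at h6
      rw [eval₂_eq', eval₂_eq', Finset.mul_sum]
      refine Finset.sum_congr rfl fun α hα => ?_
      have h7 : ∑ i, α i = δ := by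
        have h8 := h6 (mem_support_iff.1 hα)
        rw [Finsupp.weight_apply, Finsupp.sum_fintype _ _ (fun _ => by simp)] at h8
        simpa using h8
      rw [← h7, ← Finset.prod_pow_eq_pow_sum]
      simp only [mul_pow, Finset.prod_mul_distrib]
      ring
    rw [← h1, mul_zero] at h4
    exact h2 h4
  have hval : ∀ (p : A →ₐ[B] Ω) (v : Fin m → Ω), (∀ i : Fin m, p ((a 0) • T i.succ -
      (a i.succ) • T 0) = v i) → ∀ i : Fin (m + 1), p (T i) =
      (Fin.cons 0 v : Fin (m + 1) → Ω) i / (a 0 : Ω) + (((a i : ℤ) : Ω) / (a 0 : Ω)) * p (T 0) := by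
    intro p v hv i
    refine Fin.cases ?_ (fun i => ?_) i
    · rw [Fin.cons_zero]
      field_simp
      ring
    · rw [Fin.cons_succ, ← hv i, map_sub, map_zsmul, map_zsmul, zsmul_eq_mul, zsmul_eq_mul]
      field_simp
      ring
  have hroot : ∀ (p : A →ₐ[B] Ω) (v : Fin m → Ω), (∀ i : Fin m, p ((a 0) • T i.succ -
      (a i.succ) • T 0) = v i) → (R v).eval (p (T 0)) = 0 := by
    intro p v hv
    have h1 : (R v).eval (p (T 0)) = p (aeval T P) := by
      change Polynomial.evalRingHom (p (T 0)) (R v) = _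
      rw [MvPolynomial.aeval_def]
      change _ = (p : A →+* Ω) _
      rw [hom_eval₂, hom_eval₂]
      congr 1
      · ext b
        simp
      · funext i
        simp only [Function.comp_apply, map_add, map_mul, Polynomial.coe_evalRingHom,
          Polynomial.eval_C, Polynomial.eval_X]
        rw [← hval p v hv i]
        rfl
    rw [h1, hT, map_zero]
  refine ⟨fun v => ?_, fun L0 hB hL p hp j => ?_⟩
  · refine ((((R v).roots.toFinset.finite_toSet)).image fun x i =>
      (Fin.cons 0 v : Fin (m + 1) → Ω) i / (a 0 : Ω) + (((a i : ℤ) : Ω) / (a 0 : Ω)) * x).subset ?_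
    rintro t ⟨p, hp, ht⟩
    refine ⟨p (T 0), ?_, ?_⟩
    · rw [Finset.mem_coe, Multiset.mem_toFinset, Polynomial.mem_roots (hR0 v)]
      exact hroot p v hp
    · funext i
      rw [← ht i]
      exact (hval p v hp i).symm
  · have hint : ∀ n : ℤ, ((n : ℤ) : Ω) ∈ L0 := fun n => intCast_mem _ _
    set v : Fin m → Ω := fun i => p ((a 0) • T i.succ - (a i.succ) • T 0) with hv
    have hcons : ∀ i, (Fin.cons 0 v : Fin (m + 1) → Ω) i ∈ L0 := by
      intro i
      refine Fin.cases ?_ (fun i => ?_) i
      · rw [Fin.cons_zero]; exact zero_mem _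
      · rw [Fin.cons_succ]; exact hp i
    have h0 : p (T 0) ∈ L0 := by
      apply hL
      -- the polynomial over `L0`
      let R0 : Polynomial L0 := eval₂ (Polynomial.C.comp ((algebraMap B Ω).codRestrict L0 hB))
        (fun i => Polynomial.C (⟨(Fin.cons 0 v : Fin (m + 1) → Ω) i / (a 0 : Ω),
          div_mem (hcons i) (hint _)⟩ : L0) +
          Polynomial.C (⟨((a i : ℤ) : Ω) / (a 0 : Ω), div_mem (hint _) (hint _)⟩ : L0) *
          Polynomial.X) P
      have h1 : R0.map L0.subtype = R v := by
        change Polynomial.mapRingHom L0.subtype R0 = _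
        rw [hom_eval₂]
        congr 1
        · ext b
          simp
        · funext i
          simp only [Function.comp_apply, map_add, map_mul, Polynomial.coe_mapRingHom,
            Polynomial.map_C, Polynomial.map_X]
          rfl
      refine ⟨R0, ?_, ?_⟩
      · intro h
        apply hR0 v
        rw [← h1, h, Polynomial.map_zero]
      · rw [Polynomial.aeval_def, ← Polynomial.eval_map]
        change Polynomial.eval (p (T 0)) (R0.map L0.subtype) = 0
        rw [h1]
        exact hroot p v fun _ => rfl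
    rw [hval p v (fun _ => rfl) j]
    exact add_mem (div_mem (hcons j) (hint _)) (mul_mem (div_mem (hint _) (hint _)) h0)

/-- **Linear Noether normalisation.** -/
theorem noether [IsDomain A] [FaithfulSMul B A] {w : ℕ} (hw : Algebra.trdeg B A ≤ w) :
    ∀ (m : ℕ) (T : Fin m → A), ∃ T' : Fin w → A, (∀ i, T' i ∈ AddSubgroup.closure (Set.range T)) ∧
      Det (B := B) T' T := by
  classical
  intro m
  induction m with
  | zero => exact fun T => ⟨fun _ => 0, fun _ => zero_mem _, Det.of_fun fun j => j.elim0⟩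
  | succ m ih =>
    intro T
    by_cases hm : m + 1 ≤ w
    · refine ⟨fun i => if h : (i : ℕ) < m + 1 then T ⟨i, h⟩ else 0, fun i => ?_,
        Det.of_fun fun j => Or.inr ⟨⟨j, by omega⟩, ?_⟩⟩
      · dsimp only
        split_ifs with h
        · exact AddSubgroup.subset_closure ⟨_, rfl⟩
        · exact zero_mem _
      · dsimp only
        rw [dif_pos j.2]
    · have hdep : ¬ AlgebraicIndependent B T := by
        intro h
        have h1 := h.cardinalMk_le_trdeg
        rw [Cardinal.mk_fin] at h1
        have h2 : ((m + 1 : ℕ) : Cardinal) ≤ w := h1.trans hw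
        exact hm (by exact_mod_cast h2)
      rw [algebraicIndependent_iff] at hdep
      push Not at hdep
      obtain ⟨P, hT, hP⟩ := hdep
      obtain ⟨c0, c, hD⟩ := det_step T P hP hT
      obtain ⟨T', hT', hD'⟩ := ih fun i => c0 • T i.succ - c i • T 0
      refine ⟨T', fun i => ?_, hD'.trans hD⟩
      refine (AddSubgroup.closure_le _).2 ?_ (hT' i)
      rintro _ ⟨j, rfl⟩
      exact sub_mem (zsmul_mem (AddSubgroup.subset_closure (Set.mem_range_self j.succ)) _)
        (zsmul_mem (AddSubgroup.subset_closure (Set.mem_range_self 0)) _)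

end step

end Pool.Agent.N111.QC
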