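import Pool.Agent.N111.QC.Def
import Pool.Agent.N754.FG.Unit
import Pool.Agent.N49.FG.RQ1
import Pool.Agent.N455.FG.RQ3
import Pool.Agent.N558.FG.SP

/-!
Integral points of the complements of the quadrics.
-/

set_option autoImplicit false

namespace Pool.Agent.N111.QC

open MvPolynomial Filter Pool.Agent.N754.FG

/-- sequences of units of a finitely generated ring which are values of a polynomial -/
theorem units_const (s : Set ℂ) (hs : s.Finite) {M : ℕ} (F : ℕ → Fin (M + 1) → ℂ)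
    (h0 : ∀ k, F k 0 = 1)
    (hu : ∀ k (l : Fin (2 * M + 1)), pv (F k) ((l : ℕ) : ℂ) ≠ 0 ∧
      pv (F k) ((l : ℕ) : ℂ) ∈ Subring.closure s ∧ (pv (F k) ((l : ℕ) : ℂ))⁻¹ ∈ Subring.closure s)
    (𝒰 : Ultrafilter ℕ) : ∃ v : Fin (M + 1) → ℂ, ∀ᶠ k in (𝒰 : Filter ℕ), F k = v := by
  classical
  have hSP : SP := Pool.Agent.N558.FG.sp (Pool.Agent.N455.FG.rq3 Pool.Agent.N49.FG.rq1)
  set R := Subring.closure s with hR
  set t : Fin (2 * M + 1) → ℂ := fun l => ((l : ℕ) : ℂ) with ht
  have htinj : Function.Injective t := fun a b h => by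
    have h1 : ((a : ℕ) : ℂ) = ((b : ℕ) : ℂ) := h
    exact Fin.ext (by exact_mod_cast h1)
  let u : Fin (2 * M + 1) → (ℕ → R)ˣ := fun l =>
    { val := fun k => ⟨pv (F k) (t l), (hu k l).2.1⟩
      inv := fun k => ⟨(pv (F k) (t l))⁻¹, (hu k l).2.2⟩
      val_inv := by
        funext k
        apply Subtype.ext
        exact mul_inv_cancel₀ (hu k l).1
      inv_val := by
        funext k
        apply Subtype.ext
        exact inv_mul_cancel₀ (hu k l).1 }
  let g : Fin (2 * M + 1) → (BC 𝒰)ˣ := fun l => Units.map (PhC 𝒰 R : (ℕ → R) →* BC 𝒰) (u l)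
  have hg : ∀ l, (g l : BC 𝒰) = gC 𝒰 (fun k => pv (F k) (t l)) := fun l => rfl
  let Fv : Fin (M + 1) → BC 𝒰 := fun i => gC 𝒰 (fun k => F k i)
  have hsmul : ∀ (c : ℂ) (x : ℕ → ℂ), c • gC 𝒰 x = gC 𝒰 (fun k => c * x k) := by
    intro c x
    rw [Algebra.smul_def, gC_const, ← map_mul]
    rfl
  have hpv : ∀ l, pv Fv (t l) = (g l : BC 𝒰) := by
    intro l
    rw [hg, pv]
    simp only [Fv, hsmul]
    rw [← map_sum]
    congr 1
    funext k
    simp [pv, Finset.sum_apply]
  have hgne : ∀ l, (g l : BC 𝒰) ≠ 0 := fun l => (g l).ne_zero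
  let r : Fin (2 * M + 1) → Fin (2 * M + 1) → Prop := fun l l' =>
    ∃ a : ℂ, (g l : BC 𝒰) = algebraMap ℂ (BC 𝒰) a * g l'
  have hsymm : ∀ {l l'}, r l l' → r l' l := by
    rintro l l' ⟨a, ha⟩
    have ha0 : algebraMap ℂ (BC 𝒰) a ≠ 0 := by
      intro h
      exact hgne l (by rw [ha, h, zero_mul])
    refine ⟨a⁻¹, ?_⟩
    rw [ha, map_inv₀, ← mul_assoc, inv_mul_cancel₀ ha0, one_mul]
  have hr : Equivalence r := by
    refine ⟨fun l => ⟨1, by rw [map_one, one_mul]⟩, hsymm, ?_⟩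
    rintro a b c ⟨x, hx⟩ ⟨y, hy⟩
    exact ⟨x * y, by rw [hx, hy, map_mul, mul_assoc]⟩
  let st : Setoid (Fin (2 * M + 1)) := ⟨r, hr⟩
  have hcl : ∀ c : Fin (2 * M + 1) → ℂ, ∑ l, c l • pv Fv (t l) = 0 →
      ∀ (l0 : Fin (2 * M + 1)) (A : Finset (Fin (2 * M + 1))), (∀ l, l ∈ A ↔ r l0 l) →
        ∑ l ∈ A, c l • pv Fv (t l) = 0 := by
    intro c hc l0 A hA
    -- representatives
    have hrep : ∀ l, ∃ a : ℂ, (g l : BC 𝒰) = algebraMap ℂ (BC 𝒰) a *
        g (Quotient.mk st l).out := fun l => by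
      have h1 : st ((Quotient.mk st l).out) l := Quotient.mk_out l
      exact hsymm h1
    choose a ha using hrep
    let e : Fin (Fintype.card (Quotient st)) ≃ Quotient st := (Fintype.equivFin _).symm
    have h1 := unitC 𝒰 hSP s hs (Fintype.card (Quotient st)) (fun q => g (e q).out)
      (fun q => ⟨u (e q).out, rfl⟩) (by
        intro i j hij b hb
        apply hij
        apply e.injective
        have h2 : st (e i).out (e j).out := ⟨b, hb⟩
        have h3 := Quotient.sound h2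
        rwa [Quotient.out_eq, Quotient.out_eq] at h3)
      (fun q => ∑ l with Quotient.mk st l = e q, c l * a l) (by
        rw [← hc]
        have h2 : ∀ l, c l • pv Fv (t l) = algebraMap ℂ (BC 𝒰) (c l * a l) *
            g (Quotient.mk st l).out := by
          intro l
          rw [hpv, Algebra.smul_def, map_mul, mul_assoc, ← ha l]
        rw [Finset.sum_congr rfl fun l _ => h2 l,
          ← Finset.sum_fiberwise Finset.univ (fun l => Quotient.mk st l), ← e.sum_comp]
        refine Finset.sum_congr rfl fun q _ => ?_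
        rw [map_sum, Finset.sum_mul]
        refine Finset.sum_congr rfl fun l hl => ?_
        rw [(Finset.mem_filter.1 hl).2])
    have h2 := congrFun h1 (e.symm (Quotient.mk st l0))
    simp only [Equiv.apply_symm_apply, Pi.zero_apply] at h2
    have h3 : ∀ l ∈ A, c l • pv Fv (t l) = algebraMap ℂ (BC 𝒰) (c l * a l) *
        g (Quotient.mk st l0).out := by
      intro l hl
      have h4 : Quotient.mk st l = Quotient.mk st l0 := Quotient.sound (hsymm ((hA l).1 hl))
      have h5 := ha l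
      rw [h4] at h5
      rw [hpv, h5, Algebra.smul_def, map_mul, mul_assoc]
    rw [Finset.sum_congr rfl h3, ← Finset.sum_mul, ← map_sum]
    have h6 : A = Finset.univ.filter fun l => Quotient.mk st l = Quotient.mk st l0 := by
      ext l
      rw [hA, Finset.mem_filter]
      exact ⟨fun h => ⟨Finset.mem_univ _, Quotient.sound (hsymm h)⟩,
        fun h => hsymm (Quotient.exact h.2)⟩
    rw [h6, h2, map_zero, zero_mul]
  have hall := one_class Fv htinj r hr (fun l h => hgne l (by rw [← hpv]; exact h)) hcl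
  -- all the units are constant
  have hF0 : Fv 0 = 1 := by
    change gC 𝒰 (fun k => F k 0) = 1
    simp only [h0]
    exact map_one (gC 𝒰)
  have hconst : ∀ l, ∃ a : ℂ, pv Fv (t l) = algebraMap ℂ (BC 𝒰) a := by
    intro l
    obtain ⟨a, ha⟩ := hall l 0
    refine ⟨a, ?_⟩
    have h1 : (g 0 : BC 𝒰) = 1 := by
      rw [← hpv]
      have h2 : t 0 = 0 := by simp [ht]
      rw [h2, pv, Fin.sum_univ_succ]
      simp [hF0]
    rw [hpv, ha, h1, mul_one]
  let N : Submodule ℂ (BC 𝒰) := Submodule.span ℂ {1}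
  have hmemN : ∀ a : ℂ, algebraMap ℂ (BC 𝒰) a ∈ N := fun a => by
    rw [Algebra.algebraMap_eq_smul_one]
    exact Submodule.smul_mem _ _ (Submodule.mem_span_singleton_self _)
  have hF : ∀ i, Fv i ∈ N := by
    intro i
    have h1 := coeff_zero (fun i => N.mkQ (Fv i)) htinj (by
      intro l
      have h2 : pv (fun i => N.mkQ (Fv i)) (t l) = N.mkQ (pv Fv (t l)) := by
        simp only [pv, map_sum, map_smul]
      obtain ⟨a, ha⟩ := hconst l
      rw [h2, ha, Submodule.mkQ_apply, Submodule.Quotient.mk_eq_zero]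
      exact hmemN a) i
    rwa [Submodule.mkQ_apply, Submodule.Quotient.mk_eq_zero] at h1
  have hv : ∀ i, ∃ a : ℂ, ∀ᶠ k in (𝒰 : Filter ℕ), F k i = a := by
    intro i
    obtain ⟨a, ha⟩ := Submodule.mem_span_singleton.1 (hF i)
    refine ⟨a, (gC_eq 𝒰 _ _).1 ?_⟩
    change Fv i = _
    rw [← ha, ← Algebra.algebraMap_eq_smul_one, gC_const]
  choose v hv' using hv
  refine ⟨v, ?_⟩
  have h1 : ∀ᶠ k in (𝒰 : Filter ℕ), ∀ i, F k i = v i := eventually_all.2 hv'
  filter_upwards [h1] with k hk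
  exact funext hk

section

variable {O ι σ : Type} [CommRing O] [Finite ι] [Finite σ] {f : ι → MvPolynomial σ O}
  {d : ℕ} (φ : O →+* ℂ)

/-- **Points at which the quadrics are units of a finitely generated ring.** -/
theorem points (hd : 4 ≤ d) (s : Set ℂ) (hs : s.Finite) :
    {y : Mon σ d → ℂ | (∀ l : ℕ, 1 ≤ l → l ≤ 2 * num ι σ d → eval₂ φ y (quadric f d l) ≠ 0 ∧
      eval₂ φ y (quadric f d l) ∈ Subring.closure s ∧
      (eval₂ φ y (quadric f d l))⁻¹ ∈ Subring.closure s) ∧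
      ∃ t, eval₂ φ y (eqs f d t) ≠ 0}.Finite := by
  classical
  by_contra hinf
  have hinf' := Set.not_finite.mp hinf
  set B := {y : Mon σ d → ℂ | (∀ l : ℕ, 1 ≤ l → l ≤ 2 * num ι σ d →
      eval₂ φ y (quadric f d l) ≠ 0 ∧ eval₂ φ y (quadric f d l) ∈ Subring.closure s ∧
      (eval₂ φ y (quadric f d l))⁻¹ ∈ Subring.closure s) ∧
      ∃ t, eval₂ φ y (eqs f d t) ≠ 0} with hB
  have : Infinite B := Set.infinite_coe_iff.2 hinf'
  let Y : ℕ ↪ B := Infinite.natEmbedding B
  let 𝒰 : Ultrafilter ℕ := hyperfilter ℕ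
  obtain ⟨v, hv⟩ := units_const s hs (fun k => cf φ f (Y k).1) (fun k => rfl) (by
    intro k l
    rw [← quadric_pv]
    rcases Nat.eq_zero_or_pos (l : ℕ) with h0 | h0
    · have h1 : eval₂ φ (Y k).1 (quadric f d (l : ℕ)) = 1 := by
        rw [quadric_pv, h0, Nat.cast_zero, pv, Fin.sum_univ_succ]
        simp [cf]
      rw [h1, inv_one]
      exact ⟨one_ne_zero, one_mem _, one_mem _⟩
    · exact (Y k).2.1 l h0 (by omega)) 𝒰
  let w : TI ι σ d → ℂ := fun t => v ((enum ι σ d).symm t).succ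
  have hw : ∀ᶠ k in (𝒰 : Filter ℕ), ∀ t, eval₂ φ (Y k).1 (eqs f d t) = w t := by
    filter_upwards [hv] with k hk t
    have h1 := congrFun hk ((enum ι σ d).symm t).succ
    change eval₂ φ (Y k).1 (eqs f d (enum ι σ d ((enum ι σ d).symm t))) = _ at h1
    rw [Equiv.apply_symm_apply] at h1
    exact h1
  obtain ⟨k0, hk0⟩ := hw.exists
  have hne : ∃ t, w t ≠ 0 := by
    obtain ⟨t, ht⟩ := (Y k0).2.2
    exact ⟨t, by rw [← hk0]; exact ht⟩
  have hfin := fib_finite (f := f) φ hd w hne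
  have h1 : {k | ∀ t, eval₂ φ (Y k).1 (eqs f d t) = w t}.Finite := by
    refine Set.Finite.of_finite_image (hfin.subset ?_) (f := fun k => (Y k).1) ?_
    · rintro _ ⟨k, hk, rfl⟩
      exact hk
    · intro a _ b _ h
      exact Y.injective (Subtype.ext h)
  have h2 : {k | ∀ t, eval₂ φ (Y k).1 (eqs f d t) = w t} ∈ (𝒰 : Filter ℕ) := hw
  exact Ultrafilter.compl_mem_iff_notMem.1 (compl_mem_hyperfilter_of_finite h1) h2

end

end Pool.Agent.N111.QC
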