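import Pool.Agent.N111.QC.Bor
import Pool.Agent.N111.QC.Lgt
import Pool.Agent.N111.QC.Unt
import Pool.Agent.N111.QC.Emb
import Pool.Agent.N111.QC.Noe

/-!
Neighbourhoods of a closed subscheme on which everything else is hyperbolic.
-/

set_option autoImplicit false

namespace Pool.Agent.N111.QC

open MvPolynomial FF Pool.Agent.W602.GT Filter

/-- The functions `T` separate the points of `Spec A` off the closed subscheme given by `I`, up to
finite fibres. -/
def Sep (B : Type) {A : Type} [CommRing B] [CommRing A] [Algebra B A] (I : Ideal A) {ι : Type}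
    (T : ι → A) : Prop :=
  ∀ (Ω : Type) [Field Ω] [Algebra B Ω], Function.Injective (algebraMap B Ω) →
    (∀ v : ι → Ω, {p : A →ₐ[B] Ω | ¬ I ≤ RingHom.ker p ∧ ∀ i, p (T i) = v i}.Finite) ∧
    ∀ L0 : Subfield Ω, (∀ b, algebraMap B Ω b ∈ L0) → (∀ x, IsAlgebraic L0 x → x ∈ L0) →
      ∀ p : A →ₐ[B] Ω, ¬ I ≤ RingHom.ker p → (∀ i, p (T i) ∈ L0) → ∀ a, p a ∈ L0

variable {B A : Type} [CommRing B] [CommRing A] [Algebra B A]

theorem Sep.det {I : Ideal A} {ι ι' : Type} {T : ι → A} {T' : ι' → A} (hT : Sep B I T)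
    (hD : Det (B := B) T' T) : Sep B I T' := by
  intro Ω _ _ hΩ
  refine ⟨fun v => ?_, fun L0 hB hL p hI hp =>
    (hT Ω hΩ).2 L0 hB hL p hI ((hD Ω hΩ).2 L0 hB hL p hp)⟩
  refine (((hD Ω hΩ).1 v).biUnion fun t _ => (hT Ω hΩ).1 t).subset ?_
  rintro p ⟨hI, hp⟩
  rw [Set.mem_iUnion₂]
  exact ⟨fun j => p (T j), ⟨p, hp, fun _ => rfl⟩, hI, fun _ => rfl⟩

/-- The function `1 + l T_0 + l ^ 2 T_1 + … + l ^ w T_{w - 1}`. -/
def gfun {w : ℕ} (T : Fin w → A) (l : ℕ) : A := 1 + ∑ i : Fin w, (l : A) ^ ((i : ℕ) + 1) * T i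

theorem gfun_zero {w : ℕ} (T : Fin w → A) : gfun T 0 = 1 := by
  simp [gfun]

theorem gfun_map {w : ℕ} (T : Fin w → A) (l : ℕ) {k Ω : Type} [Field k] [CommRing Ω] [Algebra k Ω]
    (p : A →+* Ω) : p (gfun T l) =
      pv (Fin.cons 1 (fun i => p (T i)) : Fin (w + 1) → Ω) ((l : ℕ) : k) := by
  rw [gfun, pv, Fin.sum_univ_succ]
  simp only [map_add, map_one, map_sum, map_mul, map_pow, map_natCast, Fin.cons_zero,
    Fin.cons_succ, Fin.val_zero, pow_zero, one_mul, Fin.val_succ, Algebra.smul_def]

/-- **Subvarieties.** -/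
theorem lgt_sep {I : Ideal A} {w : ℕ} {T : Fin w → A} (hT : Sep B I T) {K E : Type} [Field K]
    [IsAlgClosed K] [CharZero K] [Algebra B K] (hB : Function.Injective (algebraMap B K)) [Field E]
    [Algebra K E] [Algebra B E] [IsScalarTower B K E] {n : ℕ} (hn : 0 < n)
    (htr : Algebra.trdeg K E = n) (p : A →ₐ[B] E) (hI : ¬ I ≤ RingHom.ker p)
    (hgen : IntermediateField.adjoin K (Set.range p) = ⊤)
    (hne : ∀ l : ℕ, 1 ≤ l → l ≤ 2 * w → p (gfun T l) ≠ 0) (Bd : Place K E → Prop)
    (hBd : ∀ P, ¬ Bd P → ∀ l : ℕ, 1 ≤ l → l ≤ 2 * w → P.ord (p (gfun T l)) = 0) :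
    LogGeneralType K E n Bd := by
  classical
  have hBE : Function.Injective (algebraMap B E) := by
    rw [IsScalarTower.algebraMap_eq B K E]
    exact (algebraMap K E).injective.comp hB
  have hg : ∀ l : ℕ, p (gfun T l) =
      pv (Fin.cons 1 (fun i => p (T i)) : Fin (w + 1) → E) ((l : ℕ) : K) := fun l =>
    gfun_map T l (p : A →+* E)
  refine lgt_units hn htr (Fin.cons 1 fun i => p (T i)) rfl (fun l => ?_) ?_ Bd
    (fun P hP l => ?_)
  · rw [← hg]
    rcases Nat.eq_zero_or_pos (l : ℕ) with h0 | h0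
    · rw [h0, gfun_zero, map_one]
      exact one_ne_zero
    · exact hne l h0 (by omega)
  · intro D hD
    let L0 : Subfield E :=
      { carrier := {x | D x = 0}
        mul_mem' := fun {a b} ha hb => by
          change D (a * b) = 0
          rw [D.leibniz, show D a = 0 from ha, show D b = 0 from hb, smul_zero, smul_zero, add_zero]
        one_mem' := D.map_one_eq_zero
        add_mem' := fun {a b} ha hb => by
          change D (a + b) = 0
          rw [map_add, show D a = 0 from ha, show D b = 0 from hb, add_zero]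
        zero_mem' := map_zero D
        neg_mem' := fun {a} ha => by
          change D (-a) = 0
          rw [map_neg, show D a = 0 from ha, neg_zero]
        inv_mem' := fun a ha => by
          change D a⁻¹ = 0
          rw [D.leibniz_inv, show D a = 0 from ha, smul_zero] }
    have hL0 : ∀ x, IsAlgebraic L0 x → x ∈ L0 := by
      intro x hint
      let D' : Derivation L0 E E :=
        { toFun := D
          map_add' := map_add D
          map_smul' := fun c x => by
            have hc : D (c : E) = 0 := c.2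
            change D ((c : E) * x) = (c : E) * D x
            rw [D.leibniz, hc, smul_zero, add_zero, smul_eq_mul]
          map_one_eq_zero' := D.map_one_eq_zero
          leibniz' := fun a b => D.leibniz a b }
      have : CharZero E := charZero_of_injective_algebraMap (algebraMap K E).injective
      have : CharZero L0 := (algebraMap L0 E).charZero
      have h2 : D' x = 0 := by
        have hsep : (minpoly L0 x).Separable :=
          (minpoly.irreducible hint.isIntegral).separable
        have h3 := D'.map_aeval (minpoly L0 x) x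
        rw [minpoly.aeval, map_zero] at h3
        have h4 : Polynomial.aeval x (Polynomial.derivative (minpoly L0 x)) ≠ 0 :=
          hsep.aeval_derivative_ne_zero (minpoly.aeval _ _)
        exact (smul_eq_zero.1 h3.symm).resolve_left h4
      exact h2
    have halg : ∀ a, D (p a) = 0 := (hT E hBE).2 L0 (fun b => by
      change D (algebraMap B E b) = 0
      rw [IsScalarTower.algebraMap_apply B K E]
      exact D.map_algebraMap _) hL0 p hI (fun i => hD i.succ)
    ext x
    have hx : x ∈ IntermediateField.adjoin K (Set.range p) := by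
      rw [hgen]
      trivial
    change D x = 0
    induction hx using IntermediateField.adjoin_induction with
    | mem x hx =>
      obtain ⟨α, rfl⟩ := hx
      exact halg α
    | algebraMap c => exact D.map_algebraMap c
    | add x y' _ _ h1 h2 => rw [map_add, h1, h2, add_zero]
    | inv x _ h1 => rw [D.leibniz_inv, h1, smul_zero]
    | mul x y' _ _ h1 h2 => rw [D.leibniz, h1, h2, smul_zero, smul_zero, add_zero]
  · rw [← hg]
    rcases Nat.eq_zero_or_pos (l : ℕ) with h0 | h0
    · rw [h0, gfun_zero, map_one]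
      exact P.ord_one
    · exact hBd P hP l h0 (by omega)

/-- **Integral points.** -/
theorem points_sep {I : Ideal A} {w : ℕ} {T : Fin w → A} (hT : Sep B I T) {R : Type} [CommRing R]
    [IsDomain R] [CharZero R] [Algebra.FiniteType ℤ R] [Algebra B R]
    (hB : Function.Injective (algebraMap B R)) :
    {p : A →ₐ[B] R | (∀ l : ℕ, 1 ≤ l → l ≤ 2 * w → IsUnit (p (gfun T l))) ∧
      ¬ I ≤ RingHom.ker p}.Finite := by
  classical
  obtain ⟨ι, s, hι, hs, hιs⟩ := exists_embed_fg R
  by_contra hinf
  have hinf' := Set.not_finite.mp hinf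
  set Z := {p : A →ₐ[B] R | (∀ l : ℕ, 1 ≤ l → l ≤ 2 * w → IsUnit (p (gfun T l))) ∧
      ¬ I ≤ RingHom.ker p} with hZ
  have : Infinite Z := Set.infinite_coe_iff.2 hinf'
  let Y : ℕ ↪ Z := Infinite.natEmbedding Z
  let 𝒰 : Ultrafilter ℕ := hyperfilter ℕ
  letI : Algebra B ℂ := (ι.comp (algebraMap B R)).toAlgebra
  let ι' : R →ₐ[B] ℂ := { ι with commutes' := fun b => rfl }
  have hι' : ∀ x, ι' x = ι x := fun _ => rfl
  let q : ℕ → (A →ₐ[B] ℂ) := fun k => ι'.comp (Y k).1
  have hg : ∀ k (l : ℕ), pv (Fin.cons 1 (fun i => q k (T i)) : Fin (w + 1) → ℂ) ((l : ℕ) : ℂ) =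
      ι ((Y k).1 (gfun T l)) := fun k l => (gfun_map T l (q k : A →+* ℂ)).symm
  have hmem : ∀ x, ι x ∈ Subring.closure s := fun x => by
    rw [← hιs]
    exact ⟨x, rfl⟩
  obtain ⟨v, hv⟩ := units_const s hs (fun k => (Fin.cons 1 (fun i => q k (T i)))) (fun k => rfl) (by
    intro k l
    rw [hg]
    have hu : IsUnit ((Y k).1 (gfun T l)) := by
      rcases Nat.eq_zero_or_pos (l : ℕ) with h0 | h0
      · rw [h0, gfun_zero, map_one]
        exact isUnit_one
      · exact (Y k).2.1 l h0 (by omega)
    obtain ⟨u, hu⟩ := hu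
    rw [← hu]
    have h1 : ι (u : R) * ι ((u⁻¹ : Rˣ) : R) = 1 := by
      rw [← map_mul, Units.mul_inv, map_one]
    have h2 : ι (u : R) ≠ 0 := left_ne_zero_of_mul_eq_one h1
    refine ⟨h2, hmem _, ?_⟩
    rw [inv_eq_of_mul_eq_one_right h1]
    exact hmem _) 𝒰
  have hfin := (hT ℂ (hι.comp hB)).1 fun i => v i.succ
  have h1 : {k | (Fin.cons 1 (fun i => q k (T i)) : Fin (w + 1) → ℂ) = v}.Finite := by
    refine Set.Finite.of_finite_image (hfin.subset ?_) (f := q) ?_
    · rintro _ ⟨k, hk, rfl⟩
      refine ⟨fun hle => (Y k).2.2 fun a ha => ?_, fun i => congrFun hk i.succ⟩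
      have h2 : q k a = 0 := hle ha
      exact hι (by rw [map_zero]; exact h2)
    · intro a _ b _ h
      apply Y.injective
      apply Subtype.ext
      apply AlgHom.ext
      intro x
      exact hι (DFunLike.congr_fun h x)
  exact Ultrafilter.compl_mem_iff_notMem.1 (compl_mem_hyperfilter_of_finite h1) hv

/-- **Entire curves.** -/
theorem entire_sep {I : Ideal A} {w : ℕ} {T : Fin w → A} (hT : Sep B I T) [Algebra B ℂ]
    (hB : Function.Injective (algebraMap B ℂ)) (F : ℂ → (A →ₐ[B] ℂ))
    (hF : ∀ a, Differentiable ℂ fun z => F z a)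
    (hne : ∀ l : ℕ, 1 ≤ l → l ≤ 2 * w → ∀ z, F z (gfun T l) ≠ 0) :
    (∀ z, I ≤ RingHom.ker (F z)) ∨ ∀ z z', F z = F z' := by
  classical
  have h1 := entire_const (Fin.cons (fun _ => 1) fun i z => F z (T i) : Fin (w + 1) → ℂ → ℂ)
    (fun i => by
      refine Fin.cases ?_ (fun i => ?_) i
      · exact differentiable_const _
      · exact hF _) (fun z => rfl) (fun l z => by
      have h2 : (fun i => (Fin.cons (fun _ => 1) fun i z => F z (T i) : Fin (w + 1) → ℂ → ℂ) i z) =
          (Fin.cons 1 (fun i => F z (T i)) : Fin (w + 1) → ℂ) := by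
        funext i
        refine Fin.cases rfl (fun i => rfl) i
      rw [h2]
      have h3 := (gfun_map T l (F z : A →+* ℂ) (k := ℂ)).symm
      refine (congrArg (· ≠ 0) h3).mpr ?_
      change F z (gfun T l) ≠ 0
      rcases Nat.eq_zero_or_pos (l : ℕ) with h0 | h0
      · rw [h0, gfun_zero, map_one]
        exact one_ne_zero
      · exact hne l h0 (by omega) z)
  by_cases hI : ∀ z, I ≤ RingHom.ker (F z)
  · exact Or.inl hI
  · right
    push Not at hI
    obtain ⟨z0, hz0⟩ := hI
    obtain ⟨t, ht, ht0⟩ := SetLike.not_le_iff_exists.1 hz0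
    have ht0' : F z0 t ≠ 0 := ht0
    have hopen : IsOpen {z | F z t ≠ 0} := isOpen_ne_fun (hF t).continuous continuous_const
    obtain ⟨ε, hε, hball⟩ := Metric.isOpen_iff.1 hopen z0 ht0'
    have hfin := (hT ℂ hB).1 fun i => F z0 (T i)
    have hmem : ∀ z ∈ Metric.ball z0 ε, F z ∈ {p : A →ₐ[B] ℂ | ¬ I ≤ RingHom.ker p ∧
        ∀ i, p (T i) = F z0 (T i)} := by
      intro z hz
      exact ⟨fun hle => hball hz (hle ht), fun i => h1 i.succ z z0⟩
    have hconst : ∀ a z, F z a = F z0 a := by
      intro a z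
      have h2 : (fun z => F z a) = fun _ => F z0 a := by
        refine AnalyticOnNhd.eq_of_eventuallyEq (z₀ := z0) ((hF a).differentiableOn.analyticOnNhd
          isOpen_univ) analyticOnNhd_const ?_
        refine Filter.eventually_of_mem (Metric.ball_mem_nhds z0 hε) fun z hz => ?_
        exact (convex_ball z0 ε).isPreconnected.constant_of_mapsTo
          (hfin.image fun p => p a).isDiscrete (hF a).continuous.continuousOn
          (fun x hx => ⟨F x, hmem x hx, rfl⟩) hz (Metric.mem_ball_self hε)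
      exact congrFun h2 z
    intro z z'
    apply AlgHom.ext
    intro a
    rw [hconst, hconst a z']

end Pool.Agent.N111.QC
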