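import Mathlib

/-!
Green's argument: units which are the values at `2 M + 1` points of a polynomial of degree at most `M`.
-/

set_option autoImplicit false

namespace Pool.Agent.N111.QC

open Finset Polynomial

variable {k V : Type*} [Field k] [AddCommGroup V] [Module k V]

/-- Lagrange interpolation of powers -/
theorem lagrange_pow {L : Type*} [DecidableEq L] {t : L → k} (ht : Function.Injective t)
    {s : Finset L} {M : ℕ} (hs : s.card = M + 1) (l0 : L) {i : ℕ} (hi : i < M + 1) :
    t l0 ^ i = ∑ l ∈ s, (Lagrange.basis s t l).eval (t l0) * t l ^ i := by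
  have h1 : (X ^ i : k[X]) = Lagrange.interpolate s t (fun l => (X ^ i : k[X]).eval (t l)) := by
    refine Lagrange.eq_interpolate ht.injOn ?_
    rw [degree_X_pow, hs]
    exact_mod_cast hi
  have h2 := congrArg (Polynomial.eval (t l0)) h1
  rw [Lagrange.interpolate_apply, eval_finset_sum] at h2
  simp only [eval_pow, eval_X, eval_mul, eval_C] at h2
  rw [h2]
  exact Finset.sum_congr rfl fun l _ => mul_comm _ _

/-- the value at `x` of the polynomial with coefficients `F i` -/
def pv {M : ℕ} (F : Fin (M + 1) → V) (x : k) : V := ∑ i : Fin (M + 1), x ^ (i : ℕ) • F i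

theorem lagrange_vec {M : ℕ} (F : Fin (M + 1) → V) {L : Type*} [DecidableEq L] {t : L → k}
    (ht : Function.Injective t) {s : Finset L} (hs : s.card = M + 1) (l0 : L) :
    pv F (t l0) = ∑ l ∈ s, (Lagrange.basis s t l).eval (t l0) • pv F (t l) := by
  unfold pv
  simp only [Finset.smul_sum]
  rw [Finset.sum_comm]
  refine Finset.sum_congr rfl fun i _ => ?_
  rw [lagrange_pow ht hs l0 i.2, Finset.sum_smul]
  exact Finset.sum_congr rfl fun l _ => (smul_smul _ _ _).symm

/-- the coefficients are determined by the values -/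
theorem coeff_zero {M : ℕ} (F : Fin (M + 1) → V) {t : Fin (2 * M + 1) → k}
    (ht : Function.Injective t) (h : ∀ l, pv F (t l) = 0) (i : Fin (M + 1)) : F i = 0 := by
  have hV : (Matrix.vandermonde fun j : Fin (M + 1) => t (Fin.castLE (by omega) j)).det ≠ 0 := by
    rw [Matrix.det_vandermonde_ne_zero_iff]
    exact ht.comp (Fin.castLE_injective _)
  set A := Matrix.vandermonde fun j : Fin (M + 1) => t (Fin.castLE (by omega) j) with hA
  have h1 : ∀ j, ∑ i, A j i • F i = 0 := fun j => h _
  have h2 : ∑ j, A⁻¹ i j • ∑ l, A j l • F l = F i := by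
    simp only [Finset.smul_sum, smul_smul]
    rw [Finset.sum_comm]
    have h3 : ∀ l, ∑ j, (A⁻¹ i j * A j l) • F l = (1 : Matrix (Fin (M + 1)) (Fin (M + 1)) k) i l •
        F l := by
      intro l
      rw [← Finset.sum_smul, ← Matrix.nonsing_inv_mul A (by rwa [isUnit_iff_ne_zero]),
        Matrix.mul_apply]
    rw [Finset.sum_congr rfl fun l _ => h3 l]
    rw [Finset.sum_eq_single i (fun l _ hl => by rw [Matrix.one_apply_ne hl.symm, zero_smul])
      (fun h => absurd (mem_univ _) h), Matrix.one_apply_eq, one_smul]
  rw [← h2]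
  refine Finset.sum_eq_zero fun j _ => ?_
  rw [h1, smul_zero]

/-- **Green's argument.** -/
theorem one_class {M : ℕ} (F : Fin (M + 1) → V) {t : Fin (2 * M + 1) → k}
    (ht : Function.Injective t) (r : Fin (2 * M + 1) → Fin (2 * M + 1) → Prop)
    (hr : Equivalence r) (hne : ∀ l, pv F (t l) ≠ 0)
    (hcl : ∀ c : Fin (2 * M + 1) → k, ∑ l, c l • pv F (t l) = 0 →
      ∀ (l0 : Fin (2 * M + 1)) (A : Finset (Fin (2 * M + 1))), (∀ l, l ∈ A ↔ r l0 l) →
        ∑ l ∈ A, c l • pv F (t l) = 0) : ∀ l l', r l l' := by
  classical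
  -- all classes are large
  have hlarge : ∀ l0, M + 1 ≤ (univ.filter fun l => r l0 l).card := by
    intro l0
    by_contra hcon
    set A := univ.filter fun l => r l0 l with hA
    have hc : M + 1 ≤ Aᶜ.card := by
      rw [card_compl, Fintype.card_fin]
      omega
    obtain ⟨s, hsA, hs⟩ := exists_subset_card_eq hc
    have hl0s : l0 ∉ s := fun h => by
      have h1 := hsA h
      rw [mem_compl, hA, mem_filter] at h1
      exact h1 ⟨mem_univ _, hr.refl _⟩
    let c : Fin (2 * M + 1) → k := fun l => if l = l0 then 1 else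
      if l ∈ s then -(Lagrange.basis s t l).eval (t l0) else 0
    have hsum : ∑ l, c l • pv F (t l) = 0 := by
      rw [← Finset.sum_subset (subset_univ (insert l0 s)) (fun l _ hl => ?_),
        Finset.sum_insert hl0s]
      · have h1 : c l0 = 1 := if_pos rfl
        have h2 : ∑ l ∈ s, c l • pv F (t l) =
            -∑ l ∈ s, (Lagrange.basis s t l).eval (t l0) • pv F (t l) := by
          rw [← Finset.sum_neg_distrib]
          refine Finset.sum_congr rfl fun l hl => ?_
          have h3 : c l = -(Lagrange.basis s t l).eval (t l0) := by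
            have h4 : l ≠ l0 := fun h => hl0s (h ▸ hl)
            simp only [c, if_neg h4, if_pos hl]
          rw [h3, neg_smul]
        rw [h1, one_smul, h2, ← lagrange_vec F ht hs l0, add_neg_cancel]
      · rw [mem_insert, not_or] at hl
        simp only [c, if_neg hl.1, if_neg hl.2, zero_smul]
    have h1 := hcl c hsum l0 A (fun l => by rw [hA, mem_filter]; exact ⟨fun h => h.2,
      fun h => ⟨mem_univ _, h⟩⟩)
    rw [Finset.sum_eq_single l0] at h1
    · have h2 : c l0 = 1 := if_pos rfl
      rw [h2, one_smul] at h1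
      exact hne l0 h1
    · intro l hl hne'
      have h2 : l ∉ s := fun h => by
        have h3 := hsA h
        rw [mem_compl] at h3
        exact h3 hl
      simp only [c, if_neg hne', if_neg h2, zero_smul]
    · intro h
      exact absurd (by rw [hA, mem_filter]; exact ⟨mem_univ _, hr.refl _⟩) h
  intro l l'
  by_contra hcon
  have h1 := hlarge l
  have h2 := hlarge l'
  have hdis : Disjoint (univ.filter fun x => r l x) (univ.filter fun x => r l' x) := by
    rw [Finset.disjoint_filter]
    exact fun x _ h3 h4 => hcon (hr.trans h3 (hr.symm h4))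
  have h3 := card_union_of_disjoint hdis
  have h4 := card_le_univ ((univ.filter fun x => r l x) ∪ (univ.filter fun x => r l' x))
  rw [Fintype.card_fin] at h4
  omega

end Pool.Agent.N111.QC
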