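import Pool.Agent.N111.QC.Ins

/-!
The Bombieri–Lang–Vojta conjecture for affine schemes over rings of integers.
-/

set_option autoImplicit false

namespace Pool.Agent.N111.QC

open MvPolynomial IsDedekindDomain NumberField

section defs

/-- Condition (i) for the affine scheme `V = Spec C` over `O` and its closed subscheme `V'` given by
the ideal `J`: every nonconstant entire curve in `V` has its image in `V'`. -/
def EntireIn (O : Type) {C : Type} [CommRing O] [CommRing C] [Algebra O C] [Algebra O ℂ]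
    (J : Ideal C) : Prop :=
  ∀ F : ℂ → (C →ₐ[O] ℂ), (∀ c, Differentiable ℂ fun z => F z c) → (∃ z w, F z ≠ F w) →
    ∀ z, J ≤ RingHom.ker (F z)

/-- Condition (ii) for the affine scheme `V = Spec C` over the ring of integers of `F₀` and its closed
subscheme `V'` given by the ideal `J`: the set `V(O_S) ∖ V'(O_S)` is finite for all finite extensions
`L` of `F₀` and all finite sets `S` of primes of `L`. -/
def FinIntegral (F₀ : Type) {C : Type} [Field F₀] [NumberField F₀] [CommRing C]
    [Algebra (𝓞 F₀) C] (J : Ideal C) : Prop :=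
  ∀ (L : Type) [Field L] [NumberField L] [Algebra F₀ L] (S : Set (HeightOneSpectrum (𝓞 L))),
    S.Finite → {p : C →ₐ[𝓞 F₀] S.integer L | ¬ J ≤ RingHom.ker p}.Finite

end defs

/-- The `S`-integers are contained in a finitely generated domain. -/
theorem exists_ring (L : Type) [Field L] [NumberField L] {S : Set (HeightOneSpectrum (𝓞 L))}
    (hS : S.Finite) : ∃ R : Subalgebra (𝓞 L) L, Algebra.FiniteType ℤ R ∧ S.integer L ≤ R := by
  classical
  have hex : ∀ v : HeightOneSpectrum (𝓞 L), ∃ a ∈ v.asIdeal, a ≠ 0 := fun v =>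
    Submodule.exists_mem_ne_zero_of_ne_bot v.ne_bot
  choose a ha ha0 using hex
  let m : 𝓞 L := ∏ v ∈ hS.toFinset, a v
  have hm0 : m ≠ 0 := Finset.prod_ne_zero_iff.2 fun v _ => ha0 v
  have hmS : ∀ v ∈ S, m ∈ v.asIdeal := fun v hv =>
    Ideal.mem_of_dvd v.asIdeal (Finset.dvd_prod_of_mem a (hS.mem_toFinset.2 hv)) (ha v)
  have hmL : (algebraMap (𝓞 L) L m) ≠ 0 := fun h => hm0 (by
    rwa [← map_zero (algebraMap (𝓞 L) L), (FaithfulSMul.algebraMap_injective (𝓞 L) L).eq_iff] at h)
  let R : Subalgebra (𝓞 L) L := Algebra.adjoin (𝓞 L) {(algebraMap (𝓞 L) L m)⁻¹}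
  refine ⟨R, ?_, ?_⟩
  · have h1 : Algebra.FiniteType (𝓞 L) R :=
      (Subalgebra.fg_iff_finiteType _).1 (Subalgebra.fg_adjoin_finset {(algebraMap (𝓞 L) L m)⁻¹} |>
        fun h => by simpa using h)
    have h2 : Algebra.FiniteType ℤ (𝓞 L) := inferInstance
    exact Algebra.FiniteType.trans h2 h1
  · intro x hx
    have hval : ∀ v : HeightOneSpectrum (𝓞 L), v ∉ S → v.valuation L x ≤ 1 := fun v hv => hx v hv
    have hmval : ∀ v ∈ S, v.valuation L (algebraMap (𝓞 L) L m) < 1 := fun v hv =>
      (v.valuation_lt_one_iff_mem m).2 (hmS v hv)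
    have hk : ∀ v ∈ S, ∃ k : ℕ, ∀ k' ≥ k, v.valuation L (algebraMap (𝓞 L) L m ^ k' * x) ≤ 1 := by
      intro v hv
      by_cases hx0 : x = 0
      · exact ⟨0, fun k' _ => by rw [hx0, mul_zero, map_zero]; exact zero_le_one⟩
      have hvx : v.valuation L x ≠ 0 := (Valuation.ne_zero_iff _).2 hx0
      have hvm : v.valuation L (algebraMap (𝓞 L) L m) ≠ 0 := (Valuation.ne_zero_iff _).2 hmL
      obtain ⟨p, hp⟩ := WithZero.ne_zero_iff_exists.1 hvx
      obtain ⟨q, hq⟩ := WithZero.ne_zero_iff_exists.1 hvm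
      have hq1 : (q : WithZero (Multiplicative ℤ)) < 1 := by rw [hq]; exact hmval v hv
      have hq2 : Multiplicative.toAdd q ≤ -1 := by
        have h3 : q < 1 := by exact_mod_cast hq1
        have h4 : Multiplicative.toAdd q < 0 := h3
        omega
      refine ⟨(Multiplicative.toAdd p).toNat, fun k' hk' => ?_⟩
      rw [map_mul, map_pow, ← hp, ← hq, ← WithZero.coe_pow, ← WithZero.coe_mul]
      have h5 : q ^ k' * p ≤ 1 := by
        change Multiplicative.toAdd (q ^ k' * p) ≤ 0
        rw [toAdd_mul, toAdd_pow]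
        have h6 : Multiplicative.toAdd p ≤ k' := by
          have := Int.self_le_toNat (Multiplicative.toAdd p)
          omega
        have h7 : k' • Multiplicative.toAdd q ≤ k' • (-1 : ℤ) := nsmul_le_nsmul_right hq2 k'
        simp only [smul_neg, nsmul_eq_mul, mul_one] at h7
        rw [nsmul_eq_mul]
        omega
      exact_mod_cast h5
    choose k hk using hk
    let K : ℕ := ∑ v : hS.toFinset, k v.1 (hS.mem_toFinset.1 v.2)
    have hle : ∀ v (hv : v ∈ S), k v hv ≤ K := fun v hv =>
      Finset.single_le_sum (f := fun v : hS.toFinset => k v.1 (hS.mem_toFinset.1 v.2))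
        (fun _ _ => Nat.zero_le _) (Finset.mem_univ (⟨v, hS.mem_toFinset.2 hv⟩ : hS.toFinset))
    have hint : ∀ v : HeightOneSpectrum (𝓞 L), v.valuation L (algebraMap (𝓞 L) L m ^ K * x) ≤ 1 := by
      intro v
      by_cases hv : v ∈ S
      · exact hk v hv K (hle v hv)
      · rw [map_mul, map_pow]
        exact mul_le_one' (pow_le_one' (v.valuation_le_one m) K) (hval v hv)
    obtain ⟨y, hy⟩ := HeightOneSpectrum.mem_integers_of_valuation_le_one L _ hint
    have hx' : x = algebraMap (𝓞 L) L y * (algebraMap (𝓞 L) L m)⁻¹ ^ K := by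
      rw [hy, inv_pow]
      field_simp
    rw [hx']
    have hinv : (algebraMap (𝓞 L) L m)⁻¹ ∈ R := Algebra.subset_adjoin (Set.mem_singleton _)
    exact R.mul_mem (R.algebraMap_mem y) (R.pow_mem hinv K)

end Pool.Agent.N111.QC
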