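import Pool.Agent.N111.QC.Blv

/-!
The Bombieri–Lang–Vojta conjecture for neighbourhoods of closed subschemes.
-/

set_option autoImplicit false

namespace Pool.Agent.N111.QC

open MvPolynomial IsDedekindDomain NumberField

section pull

variable {O D C : Type} [CommRing O] [CommRing D] [CommRing C] [Algebra O D] [Algebra O C]
  (ρ : D →ₐ[O] C)

theorem factor (hρ : Function.Surjective ρ) {Ω : Type} [CommRing Ω] [Algebra O Ω]
    (p : D →ₐ[O] Ω) (h : RingHom.ker ρ ≤ RingHom.ker p) : ∃ q : C →ₐ[O] Ω, q.comp ρ = p := by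
  let q0 : (D ⧸ RingHom.ker ρ) →ₐ[O] Ω := Ideal.Quotient.liftₐ _ p fun a ha => h ha
  let e : (D ⧸ RingHom.ker ρ) ≃ₐ[O] C := Ideal.quotientKerAlgEquivOfSurjective hρ
  refine ⟨q0.comp (e.symm : C →ₐ[O] (D ⧸ RingHom.ker ρ)), ?_⟩
  apply AlgHom.ext
  intro a
  have h1 : e.symm (ρ a) = Ideal.Quotient.mk _ a := by
    rw [AlgEquiv.symm_apply_eq]
    rfl
  change q0 (e.symm (ρ a)) = _
  rw [h1]
  rfl

theorem comp_inj (hρ : Function.Surjective ρ) {Ω : Type} [CommRing Ω] [Algebra O Ω]
    {q q' : C →ₐ[O] Ω} (h : q.comp ρ = q'.comp ρ) : q = q' := by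
  apply AlgHom.ext
  intro c
  obtain ⟨d, rfl⟩ := hρ c
  exact DFunLike.congr_fun h d

theorem entire_pull (hρ : Function.Surjective ρ) [Algebra O ℂ]
    (h0 : EntireIn O (RingHom.ker ρ)) (J : Ideal C) :
    EntireIn O (J.comap ρ) ↔ EntireIn O J := by
  constructor
  · rintro h F hF ⟨z0, w0, hne⟩ z c hc
    have h1 := h (fun z => (F z).comp ρ) (fun d => hF _)
      ⟨z0, w0, fun h2 => hne (comp_inj ρ hρ h2)⟩ z
    obtain ⟨d, rfl⟩ := hρ c
    exact h1 (show d ∈ J.comap ρ from hc)
  · rintro h F hF hnc z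
    have h1 := fun z => factor ρ hρ (F z) (h0 F hF hnc z)
    choose q hq using h1
    have h2 := h q (fun c => by
      obtain ⟨d, rfl⟩ := hρ c
      have h3 : (fun z => q z (ρ d)) = fun z => F z d := by
        funext z
        exact DFunLike.congr_fun (hq z) d
      rw [h3]
      exact hF d) (by
      obtain ⟨z0, w0, hne⟩ := hnc
      exact ⟨z0, w0, fun h3 => hne (by rw [← hq, ← hq, h3])⟩) z
    intro d hd
    have h3 := h2 (show ρ d ∈ J from hd)
    rw [RingHom.mem_ker] at h3 ⊢
    rw [← hq z]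
    exact h3

end pull

theorem fin_pull {F₀ : Type} [Field F₀] [NumberField F₀] {D C : Type} [CommRing D] [CommRing C]
    [Algebra (𝓞 F₀) D] [Algebra (𝓞 F₀) C] (ρ : D →ₐ[𝓞 F₀] C) (hρ : Function.Surjective ρ)
    (h0 : FinIntegral F₀ (RingHom.ker ρ)) (J : Ideal C) :
    FinIntegral F₀ (J.comap ρ) ↔ FinIntegral F₀ J := by
  constructor
  · intro h L _ _ _ S hS
    refine Set.Finite.of_finite_image (f := fun q => q.comp ρ) ((h L S hS).subset ?_)
      fun q _ q' _ hqq => comp_inj ρ hρ hqq
    rintro _ ⟨q, hq, rfl⟩ hle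
    apply hq
    intro c hc
    obtain ⟨d, rfl⟩ := hρ c
    exact hle (show d ∈ J.comap ρ from hc)
  · intro h L _ _ _ S hS
    refine (((h L S hS).image fun q => q.comp ρ).union (h0 L S hS)).subset ?_
    intro p hp
    by_cases hk : RingHom.ker ρ ≤ RingHom.ker p
    · left
      obtain ⟨q, rfl⟩ := factor ρ hρ p hk
      exact ⟨q, fun hle => hp fun d hd => hle hd, rfl⟩
    · exact Or.inr hk

section main

variable {B A C : Type} [CommRing B] [CommRing A] [CommRing C] [Algebra B A] [Algebra B C]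
  {w : ℕ} {T : Fin w → A} (π : A →ₐ[B] C) (hTI : ∀ i, π (T i) = 0)

/-- the closed embedding in the neighbourhood -/
noncomputable def rho : Localization.Away (gprod T) →ₐ[B] C := lft π hTI (AlgHom.id B C)

theorem rho_alg (a : A) : rho π hTI (algebraMap A _ a) = π a :=
  DFunLike.congr_fun (res_lft π hTI (AlgHom.id B C)) a

theorem rho_surj (hπ : Function.Surjective π) : Function.Surjective (rho π hTI) := by
  intro c
  obtain ⟨a, rfl⟩ := hπ c
  exact ⟨algebraMap A _ a, rho_alg π hTI a⟩

theorem ker_rho {Ω : Type} [CommRing Ω] [Algebra B Ω] (hπ : Function.Surjective π)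
    (p : Localization.Away (gprod T) →ₐ[B] Ω) :
    RingHom.ker (rho π hTI) ≤ RingHom.ker p ↔ RingHom.ker π ≤ RingHom.ker (res p) := by
  constructor
  · intro h a ha
    refine h (x := algebraMap A _ a) ?_
    rw [RingHom.mem_ker, rho_alg]
    exact ha
  · intro h
    obtain ⟨q, rfl⟩ := exists_lft π hπ hTI p h
    have h1 : lft π hTI q = q.comp (rho π hTI) := by
      apply res_inj
      rw [res_lft]
      apply AlgHom.ext
      intro a
      rw [res_apply, AlgHom.comp_apply, AlgHom.comp_apply, rho_alg]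
    rw [h1]
    intro d hd
    rw [RingHom.mem_ker] at hd ⊢
    rw [AlgHom.comp_apply, hd, map_zero]

theorem entire_rho (hπ : Function.Surjective π) (hT : Sep B (RingHom.ker π) T) [Algebra B ℂ]
    (hB : Function.Injective (algebraMap B ℂ)) : EntireIn B (RingHom.ker (rho π hTI)) := by
  rintro F hF ⟨z0, w0, hne⟩ z
  rw [ker_rho π hTI hπ]
  rcases entire_sep hT hB (fun z => res (F z)) (fun a => hF _) (fun l h1 h2 z => by
      exact gf_all (P := fun a => res (F z) a ≠ 0) (fun l => (res_unit (F z) l).ne_zero) l h1 h2)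
    with h | h
  · exact h z
  · exact absurd (res_inj (h z0 w0)) hne

end main

theorem fin_rho {F₀ : Type} [Field F₀] [NumberField F₀] {A C : Type} [CommRing A] [CommRing C]
    [Algebra (𝓞 F₀) A] [Algebra (𝓞 F₀) C] {w : ℕ} {T : Fin w → A} (π : A →ₐ[𝓞 F₀] C)
    (hTI : ∀ i, π (T i) = 0) (hπ : Function.Surjective π)
    (hT : Sep (𝓞 F₀) (RingHom.ker π) T) : FinIntegral F₀ (RingHom.ker (rho π hTI)) := by
  intro L _ _ _ S hS
  obtain ⟨R, hR, hle⟩ := exists_ring L hS
  have hinj : Function.Injective (algebraMap (𝓞 F₀) R) := by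
    have h1 : Function.Injective (algebraMap (𝓞 F₀) L) := by
      rw [IsScalarTower.algebraMap_eq (𝓞 F₀) F₀ L]
      exact (algebraMap F₀ L).injective.comp (FaithfulSMul.algebraMap_injective (𝓞 F₀) F₀)
    intro a b hab
    exact h1 (congrArg Subtype.val hab)
  have h1 := points_sep hT (R := R) hinj
  let i : S.integer L →ₐ[𝓞 F₀] R := (Subalgebra.inclusion hle).restrictScalars (𝓞 F₀)
  have hi : Function.Injective i := Subalgebra.inclusion_injective hle
  refine Set.Finite.of_finite_image (f := fun p => i.comp (res p)) (h1.subset ?_) ?_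
  · rintro _ ⟨p, hp, rfl⟩
    refine ⟨gf_all (P := fun a => IsUnit (i (res p a))) fun l => (res_unit p l).map i, fun h2 => ?_⟩
    apply hp
    rw [ker_rho π hTI hπ]
    intro a ha
    have h3 := h2 ha
    rw [RingHom.mem_ker] at h3 ⊢
    apply hi
    rw [map_zero]
    exact h3
  · intro p _ q _ h
    apply res_inj
    apply AlgHom.ext
    intro a
    exact hi (DFunLike.congr_fun h a)

/-- The closed embedding of `V = Spec C` in `X = Spec D` given by the surjective map `ρ` satisfies
conditions (i) and (ii), and for each closed subscheme `V'` of `V`, given by `J`, each of the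
conditions (i) and (ii) holds for `(X, V')` if and only if it holds for `(V, V')`. -/
def Absorbs (F₀ : Type) [Field F₀] [NumberField F₀] [Algebra F₀ ℂ] {D C : Type} [CommRing D]
    [CommRing C] [Algebra (𝓞 F₀) D] [Algebra (𝓞 F₀) C] (ρ : D →ₐ[𝓞 F₀] C) : Prop :=
  Function.Surjective ρ ∧ EntireIn (𝓞 F₀) (RingHom.ker ρ) ∧ FinIntegral F₀ (RingHom.ker ρ) ∧
    ∀ J : Ideal C, (EntireIn (𝓞 F₀) (J.comap ρ) ↔ EntireIn (𝓞 F₀) J) ∧
      (FinIntegral F₀ (J.comap ρ) ↔ FinIntegral F₀ J)

/-- The conjecture of Bombieri, Lang and Vojta for the affine scheme `V = Spec C` over the ring of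
integers of `F₀` and all its closed subschemes `V'`: the conditions (i) and (ii) are equivalent. -/
def BLV (F₀ : Type) [Field F₀] [NumberField F₀] [Algebra F₀ ℂ] (C : Type) [CommRing C]
    [Algebra (𝓞 F₀) C] : Prop :=
  ∀ J : Ideal C, EntireIn (𝓞 F₀) J ↔ FinIntegral F₀ J

/-- The coordinate ring of the open subscheme of `Spec A` where all the functions `g l` are
invertible. -/
abbrev Nbh {A : Type} [CommRing A] {m : ℕ} (g : Fin m → A) : Type := Localization.Away (∏ l, g l)

end Pool.Agent.N111.QC
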