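import Pool.Agent.N111.QC.Def
import Pool.Agent.H159R3.War.LogCurve

/-!
Entire curves in the complements of the quadrics.
-/

set_option autoImplicit false

namespace Pool.Agent.N111.QC

open MvPolynomial

theorem diff_eval₂ {O J : Type} [CommRing O] [Fintype J] (φ : O →+* ℂ) {F : ℂ → J → ℂ}
    (hF : Differentiable ℂ F) (p : MvPolynomial J O) :
    Differentiable ℂ fun z => eval₂ φ (F z) p := by
  induction p using MvPolynomial.induction_on with
  | C a => simp
  | add p q hp hq =>
    have h1 : (fun z => eval₂ φ (F z) (p + q)) = fun z => eval₂ φ (F z) p + eval₂ φ (F z) q := by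
      funext z
      rw [eval₂_add]
    rw [h1]
    exact hp.fun_add hq
  | mul_X p j hp =>
    have h1 : (fun z => eval₂ φ (F z) (p * X j)) = fun z => eval₂ φ (F z) p * F z j := by
      funext z
      rw [eval₂_mul, eval₂_X]
    rw [h1]
    exact hp.mul (differentiable_pi.1 hF j)

theorem const_of_finite {J : Type} [Fintype J] {F : ℂ → J → ℂ} (hF : Continuous F)
    {T : Set (J → ℂ)} (hT : T.Finite) (h : ∀ z, F z ∈ T) (z w : ℂ) : F z = F w := by
  have : Finite T := hT
  exact isPreconnected_univ.constant_of_mapsTo hT.isDiscrete hF.continuousOn (fun x _ => h x)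
    (Set.mem_univ z) (Set.mem_univ w)

theorem pv_apply {k : Type} [Field k] {S : Type} {M : ℕ} (F : Fin (M + 1) → S → k) (x : k)
    (z : S) : pv F x z = pv (fun i => F i z) x := by
  simp [pv, Finset.sum_apply]

theorem pv_zero {k V : Type} [Field k] [AddCommGroup V] [Module k V] {M : ℕ}
    (F : Fin (M + 1) → V) : pv F (0 : k) = F 0 := by
  rw [pv, Fin.sum_univ_succ]
  simp

theorem cast_inj {k : Type} [Field k] [CharZero k] {M : ℕ} :
    Function.Injective fun l : Fin (2 * M + 1) => ((l : ℕ) : k) := by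
  intro a b h
  have h1 : ((a : ℕ) : k) = ((b : ℕ) : k) := h
  exact Fin.ext (by exact_mod_cast h1)

/-- units without zeros which are values of a polynomial -/
theorem entire_const {M : ℕ} (F : Fin (M + 1) → ℂ → ℂ) (hF : ∀ i, Differentiable ℂ (F i))
    (h0 : ∀ z, F 0 z = 1)
    (hne : ∀ (l : Fin (2 * M + 1)) (z : ℂ), pv (fun i => F i z) ((l : ℕ) : ℂ) ≠ 0)
    (i : Fin (M + 1)) (z w : ℂ) : F i z = F i w := by
  classical
  set t : Fin (2 * M + 1) → ℂ := fun l => ((l : ℕ) : ℂ) with ht
  have htinj : Function.Injective t := cast_inj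
  set u : Fin (2 * M + 1) → ℂ → ℂ := fun l => pv F (t l) with hu
  have hu0 : ∀ l z, u l z ≠ 0 := fun l z => by
    rw [hu]
    change pv F (t l) z ≠ 0
    rw [pv_apply]
    exact hne l z
  have hud : ∀ l, Differentiable ℂ (u l) := fun l => by
    have h1 : u l = fun z => ∑ i : Fin (M + 1), t l ^ (i : ℕ) * F i z := by
      funext z
      simp [hu, pv, Finset.sum_apply]
    rw [h1]
    exact Differentiable.fun_sum fun i _ => (hF i).const_mul _
  let r : Fin (2 * M + 1) → Fin (2 * M + 1) → Prop := fun l l' => ∃ a : ℂ, ∀ z, u l z = a * u l' z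
  have hsymm : ∀ {l l'}, r l l' → r l' l := by
    rintro l l' ⟨a, ha⟩
    have ha0 : a ≠ 0 := by
      rintro rfl
      exact hu0 l 0 (by rw [ha, zero_mul])
    exact ⟨a⁻¹, fun z => by rw [ha z, ← mul_assoc, inv_mul_cancel₀ ha0, one_mul]⟩
  have hr : Equivalence r := by
    refine ⟨fun l => ⟨1, fun z => (one_mul _).symm⟩, hsymm, ?_⟩
    rintro a b c ⟨x, hx⟩ ⟨y, hy⟩
    exact ⟨x * y, fun z => by rw [hx, hy, mul_assoc]⟩
  have hall := one_class F htinj r hr (fun l h => hu0 l 0 (by
      change pv F (t l) 0 = 0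
      rw [h]
      rfl)) (by
    intro c hc l0 A hA
    obtain ⟨s, hs⟩ := Pool.Agent.H159R3.War.class_span u hud hu0 l0
    have hmem : ∀ l, l ∈ A ↔ ∃ a : ℂ, ∀ z, u l z = a * u l0 z := fun l =>
      (hA l).trans ⟨fun h => hsymm h, fun h => hsymm h⟩
    have h1 : ∑ l ∈ A, c l * u l 0 = 0 := by
      have h2 : ∑ l, c l * (s.sum fun z a => a * u l z) = 0 := by
        have h3 : ∀ z, ∑ l, c l * u l z = 0 := by
          intro z
          have h4 := congrFun hc z
          simpa [Finset.sum_apply] using h4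
        calc ∑ l, c l * (s.sum fun z a => a * u l z)
            = s.sum fun z a => a * ∑ l, c l * u l z := by
              simp only [Finsupp.sum, Finset.mul_sum]
              rw [Finset.sum_comm]
              exact Finset.sum_congr rfl fun z _ => Finset.sum_congr rfl fun l _ => by ring
          _ = 0 := by
              simp [h3, Finsupp.sum]
      refine Eq.trans ?_ h2
      refine Finset.sum_subset_zero_on_sdiff (Finset.subset_univ _) ?_ ?_
      · intro l hl
        rw [Finset.mem_sdiff] at hl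
        rw [(hs l).2 (fun h => hl.2 ((hmem l).2 h)), mul_zero]
      · intro l hl
        rw [(hs l).1 ((hmem l).1 hl)]
    funext z
    have h5 : ∀ l ∈ A, c l * u l z = u l0 z / u l0 0 * (c l * u l 0) := by
      intro l hl
      obtain ⟨a, ha⟩ := (hmem l).1 hl
      rw [ha z, ha 0]
      field_simp [hu0 l0 0]
    have h6 : (∑ l ∈ A, c l • pv F (t l)) z = ∑ l ∈ A, c l * u l z := by
      simp [Finset.sum_apply, hu]
    rw [h6, Finset.sum_congr rfl h5, ← Finset.mul_sum, h1, mul_zero]
    rfl)
  have hconst : ∀ l z, u l z = u l 0 := by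
    intro l z
    obtain ⟨a, ha⟩ := hall l 0
    have h1 : ∀ z, u 0 z = 1 := by
      intro z
      have h2 : t 0 = 0 := by simp [ht]
      change pv F (t 0) z = 1
      rw [h2, pv_zero, h0]
    have h3 : u l z = a * u 0 z := ha z
    have h4 : u l 0 = a * u 0 0 := ha 0
    rw [h3, h4, h1, h1]
  have h7 := coeff_zero (fun i => F i z - F i w) htinj (by
    intro l
    have h8 : pv (fun i => F i z - F i w) (t l) = u l z - u l w := by
      change _ = pv F (t l) z - pv F (t l) w
      rw [pv_apply, pv_apply]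
      simp only [pv, smul_eq_mul, mul_sub, Finset.sum_sub_distrib]
    rw [h8, hconst l z, hconst l w, sub_self]) i
  exact sub_eq_zero.1 h7

section

variable {O ι σ : Type} [CommRing O] [Finite ι] [Finite σ] {f : ι → MvPolynomial σ O}
  {d : ℕ} (φ : O →+* ℂ)

/-- **Entire curves.** -/
theorem entire (hd : 4 ≤ d) {F : ℂ → Mon σ d → ℂ} (hF : Differentiable ℂ F)
    (hQ : ∀ (l : ℕ), 1 ≤ l → l ≤ 2 * num ι σ d → ∀ z, eval₂ φ (F z) (quadric f d l) ≠ 0) :
    (∀ z t, eval₂ φ (F z) (eqs f d t) = 0) ∨ ∀ z w, F z = F w := by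
  classical
  have h1 := entire_const (fun i z => cf φ f (F z) i) (fun i => by
      refine Fin.cases ?_ (fun i => ?_) i
      · exact differentiable_const _
      · exact diff_eval₂ φ hF _) (fun z => rfl) (fun l z => by
      change pv (cf φ f (F z)) ((l : ℕ) : ℂ) ≠ 0
      rw [← quadric_pv]
      rcases Nat.eq_zero_or_pos (l : ℕ) with h0 | h0
      · rw [quadric_pv, h0, Nat.cast_zero, pv_zero]
        exact one_ne_zero
      · exact hQ l h0 (by omega) z)
  have h2 : ∀ z t, eval₂ φ (F z) (eqs f d t) = eval₂ φ (F 0) (eqs f d t) := by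
    intro z t
    have h3 := h1 ((enum ι σ d).symm t).succ z 0
    change eval₂ φ (F z) (eqs f d (enum ι σ d ((enum ι σ d).symm t))) =
      eval₂ φ (F 0) (eqs f d (enum ι σ d ((enum ι σ d).symm t))) at h3
    rwa [Equiv.apply_symm_apply] at h3
  by_cases hne : ∃ t, eval₂ φ (F 0) (eqs f d t) ≠ 0
  · right
    exact const_of_finite hF.continuous (fib_finite φ hd _ hne) (fun z t => h2 z t)
  · left
    push Not at hne
    exact fun z t => by rw [h2, hne]

end

end Pool.Agent.N111.QC
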