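import Mathlib

/-!
The quadrics containing a Veronese variety: the fibres of the map which they define are finite outside
of the Veronese variety.
-/

set_option autoImplicit false

namespace Pool.Agent.N111.QC

open Finsupp

section ring

variable {σ Ω : Type*} [CommRing Ω] {d : ℕ}

/-- admissible quadruples of exponents -/
def Adm (d : ℕ) (α β γ δ : σ →₀ ℕ) : Prop :=
  α.degree ≤ d ∧ β.degree ≤ d ∧ γ.degree ≤ d ∧ δ.degree ≤ d ∧ α + β = γ + δ

/-- the quadrics have the values `w` at `y` -/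
def Rz (d : ℕ) (w : (σ →₀ ℕ) → (σ →₀ ℕ) → (σ →₀ ℕ) → (σ →₀ ℕ) → Ω) (y : (σ →₀ ℕ) → Ω) : Prop :=
  y 0 = 1 ∧ ∀ α β γ δ, Adm d α β γ δ → y α * y β - y γ * y δ = w α β γ δ

variable {w : (σ →₀ ℕ) → (σ →₀ ℕ) → (σ →₀ ℕ) → (σ →₀ ℕ) → Ω} {y : (σ →₀ ℕ) → Ω}

theorem deg_e (i : σ) : (single i 1 : σ →₀ ℕ).degree = 1 := by
  rw [Finsupp.degree_single]

/-- the defect of multiplicativity -/
theorem Rz.kap (h : Rz d w y) {α β : σ →₀ ℕ} (hd : α.degree + β.degree ≤ d) :
    y (α + β) = w (α + β) 0 α β + y α * y β := by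
  have h1 := h.2 (α + β) 0 α β ⟨by rw [map_add]; exact hd, by rw [map_zero]; omega, by omega,
    by omega, by rw [add_zero]⟩
  rw [h.1, mul_one] at h1
  linear_combination h1

theorem exists_pred {γ : σ →₀ ℕ} (h : γ ≠ 0) : ∃ (j : σ) (γ' : σ →₀ ℕ), γ = γ' + single j 1 := by
  classical
  obtain ⟨j, hj⟩ := Finsupp.ne_iff.1 h
  have hj' : γ j ≠ 0 := hj
  refine ⟨j, γ - single j 1, ?_⟩
  ext k
  rw [Finsupp.add_apply, Finsupp.tsub_apply]
  by_cases hk : j = k
  · subst hk
    rw [Finsupp.single_eq_same]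
    omega
  · rw [Finsupp.single_eq_of_ne' hk]
    omega

/-- multiplicative points -/
theorem Rz.mult (h : Rz d w y)
    (h0 : ∀ (α : σ →₀ ℕ) (i : σ), α.degree + 1 ≤ d → w (α + single i 1) 0 α (single i 1) = 0)
    (γ : σ →₀ ℕ) (hγ : γ.degree ≤ d) : y γ = γ.prod fun j m => y (single j 1) ^ m := by
  classical
  obtain ⟨N, hN⟩ : ∃ N, γ.degree = N := ⟨_, rfl⟩
  induction N generalizing γ with
  | zero =>
    have h1 : γ = 0 := by
      rwa [Finsupp.degree_eq_zero_iff] at hN
    rw [h1, Finsupp.prod_zero_index, h.1]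
  | succ N ih =>
    have hne : γ ≠ 0 := by
      rintro rfl
      rw [map_zero] at hN
      omega
    obtain ⟨j, γ', rfl⟩ := exists_pred hne
    rw [map_add, deg_e] at hN hγ
    have e : (single j 1 : σ →₀ ℕ).prod (fun j m => y (single j 1) ^ m) = y (single j 1) := by
      rw [Finsupp.prod_single_index (h := fun j m => y (single j 1) ^ m) (pow_zero _), pow_one]
    have e2 : (γ' + single j 1).prod (fun j m => y (single j 1) ^ m) =
        γ'.prod (fun j m => y (single j 1) ^ m) * y (single j 1) := by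
      rw [Finsupp.prod_add_index' (fun _ => pow_zero _) (fun _ _ _ => pow_add _ _ _), e]
    rw [h.kap (by rw [deg_e]; exact hγ), h0 γ' j hγ, zero_add, ih γ' (by omega) (by omega), e2]

end ring

variable {σ Ω : Type*} [Field Ω] {d : ℕ}
  {w : (σ →₀ ℕ) → (σ →₀ ℕ) → (σ →₀ ℕ) → (σ →₀ ℕ) → Ω} {y : (σ →₀ ℕ) → Ω}

variable (L0 : Subfield Ω)

/-- **The fibres of the quadrics.** -/
theorem core (hd : 4 ≤ d) (hw : ∀ α β γ δ, Adm d α β γ δ → w α β γ δ ∈ L0)
    (hne : ∃ α β γ δ, Adm d α β γ δ ∧ w α β γ δ ≠ 0) :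
    ∃ b ∈ L0, ∃ c ∈ L0, ∃ s : ((σ →₀ ℕ) → Ω) → Ω, ∀ γ : σ →₀ ℕ, γ.degree ≤ d →
      ∃ C ∈ L0, ∃ C' ∈ L0, ∀ y, Rz d w y → s y ^ 2 = b * s y + c ∧ y γ = C + C' * s y := by
  classical
  by_cases hex : ∃ y, Rz d w y
  swap
  · refine ⟨0, zero_mem _, 0, zero_mem _, fun _ => 0, fun γ _ => ⟨0, zero_mem _, 0, zero_mem _,
      fun y hy => absurd ⟨y, hy⟩ hex⟩⟩
  obtain ⟨y0, hy0⟩ := hex
  have hkap : ∀ α β : σ →₀ ℕ, α.degree + β.degree ≤ d → w (α + β) 0 α β ∈ L0 := fun α β h =>
    hw _ _ _ _ ⟨by rw [map_add]; exact h, by rw [map_zero]; omega, by omega, by omega,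
      by rw [add_zero]⟩
  by_cases hlow : ∃ i j : σ, w (single i 1 + single j 1) 0 (single i 1) (single j 1) ≠ 0
  · obtain ⟨i, j, hij⟩ := hlow
    set κ := w (single i 1 + single j 1) 0 (single i 1) (single j 1) with hκ
    have hκL : κ ∈ L0 := hkap _ _ (by rw [deg_e, deg_e]; omega)
    -- coordinates of small degree
    have hsmall : ∀ y, Rz d w y → ∀ γ : σ →₀ ℕ, γ.degree + 2 ≤ d →
        y γ = (w (single i 1 + (single j 1 + γ)) 0 (single i 1) (single j 1 + γ) -
          w (single i 1 + single j 1 + γ) 0 (single i 1 + single j 1) γ) / κ +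
          w (single j 1 + γ) 0 (single j 1) γ / κ * y (single i 1) := by
      intro y hy γ hγ
      have e1 := hy.kap (α := single i 1 + single j 1) (β := γ)
        (by rw [map_add, deg_e, deg_e]; omega)
      have e2 := hy.kap (α := single i 1) (β := single j 1) (by rw [deg_e, deg_e]; omega)
      have e3 := hy.kap (α := single i 1) (β := single j 1 + γ)
        (by rw [map_add, deg_e, deg_e]; omega)
      have e4 := hy.kap (α := single j 1) (β := γ) (by rw [deg_e]; omega)
      rw [← hκ] at e2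
      rw [e2] at e1
      rw [e4, ← add_assoc, e1] at e3
      rw [← add_assoc (single i 1) (single j 1) γ]
      field_simp
      linear_combination e3
    set A : (σ →₀ ℕ) → Ω := fun γ =>
      (w (single i 1 + (single j 1 + γ)) 0 (single i 1) (single j 1 + γ) -
          w (single i 1 + single j 1 + γ) 0 (single i 1 + single j 1) γ) / κ with hA
    set A' : (σ →₀ ℕ) → Ω := fun γ => w (single j 1 + γ) 0 (single j 1) γ / κ with hA'
    have hAL : ∀ γ : σ →₀ ℕ, γ.degree + 2 ≤ d → A γ ∈ L0 := fun γ hγ =>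
      div_mem (sub_mem (hkap _ _ (by rw [map_add, deg_e, deg_e]; omega))
        (hkap _ _ (by rw [map_add, deg_e, deg_e]; omega))) hκL
    have hAL' : ∀ γ : σ →₀ ℕ, γ.degree + 2 ≤ d → A' γ ∈ L0 := fun γ hγ =>
      div_mem (hkap _ _ (by rw [deg_e]; omega)) hκL
    set γ2 : σ →₀ ℕ := single i 1 + single i 1 with hγ2
    have hγ2d : γ2.degree + 2 ≤ d := by
      rw [hγ2, map_add, deg_e]
      omega
    have hsq : ∀ y, Rz d w y → y (single i 1) ^ 2 = A' γ2 * y (single i 1) +
        (A γ2 - w γ2 0 (single i 1) (single i 1)) := by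
      intro y hy
      have e1 := hsmall y hy γ2 hγ2d
      have e2 := hy.kap (α := single i 1) (β := single i 1) (by rw [deg_e]; omega)
      have e3 : y γ2 = A γ2 + A' γ2 * y (single i 1) := e1
      rw [← hγ2] at e2
      linear_combination e3 - e2
    refine ⟨A' γ2, hAL' _ hγ2d, A γ2 - w γ2 0 (single i 1) (single i 1),
      sub_mem (hAL _ hγ2d) (hkap _ _ (by rw [deg_e]; omega)), fun y => y (single i 1), ?_⟩
    intro γ hγ
    obtain ⟨N, hN⟩ : ∃ N, γ.degree = N := ⟨_, rfl⟩
    induction N generalizing γ with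
    | zero =>
      have h1 : γ = 0 := by
        rwa [Finsupp.degree_eq_zero_iff] at hN
      subst h1
      exact ⟨1, one_mem _, 0, zero_mem _, fun y hy => ⟨hsq y hy, by rw [hy.1]; ring⟩⟩
    | succ N ih =>
      have hne' : γ ≠ 0 := by
        rintro rfl
        rw [map_zero] at hN
        omega
      obtain ⟨k, γ', rfl⟩ := exists_pred hne'
      rw [map_add, deg_e] at hN hγ
      obtain ⟨C, hC, C', hC', h1⟩ := ih γ' (by omega) (by omega)
      have hek : (single k 1 : σ →₀ ℕ).degree + 2 ≤ d := by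
        rw [deg_e]
        omega
      set b := A' γ2 with hb
      set c := A γ2 - w γ2 0 (single i 1) (single i 1) with hc
      have hbL : b ∈ L0 := hAL' _ hγ2d
      have hcL : c ∈ L0 := sub_mem (hAL _ hγ2d) (hkap _ _ (by rw [deg_e]; omega))
      set a := A (single k 1) with ha
      set a' := A' (single k 1) with ha'
      have haL : a ∈ L0 := hAL _ hek
      have haL' : a' ∈ L0 := hAL' _ hek
      refine ⟨w (γ' + single k 1) 0 γ' (single k 1) + C * a + C' * a' * c,
        add_mem (add_mem (hkap _ _ (by rw [deg_e]; exact hγ)) (mul_mem hC haL))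
          (mul_mem (mul_mem hC' haL') hcL),
        C * a' + C' * a + C' * a' * b,
        add_mem (add_mem (mul_mem hC haL') (mul_mem hC' haL)) (mul_mem (mul_mem hC' haL') hbL),
        fun y hy => ?_⟩
      obtain ⟨h2, h3⟩ := h1 y hy
      refine ⟨h2, ?_⟩
      have h4 : y (single k 1) = a + a' * y (single i 1) := hsmall y hy _ hek
      rw [hy.kap (by rw [deg_e]; exact hγ), h3, h4]
      linear_combination C' * a' * h2
  · push Not at hlow
    obtain ⟨α, i, hα, hαi⟩ : ∃ (α : σ →₀ ℕ) (i : σ), α.degree + 1 ≤ d ∧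
        w (α + single i 1) 0 α (single i 1) ≠ 0 := by
      by_contra hcon
      push Not at hcon
      obtain ⟨α, β, γ, δ, hadm, hwne⟩ := hne
      apply hwne
      rw [← hy0.2 α β γ δ hadm]
      obtain ⟨h1, h2, h3, h4, h5⟩ := hadm
      have hm := hy0.mult hcon
      rw [hm α h1, hm β h2, hm γ h3, hm δ h4,
        ← Finsupp.prod_add_index' (fun _ => pow_zero _) (fun _ _ _ => pow_add _ _ _),
        ← Finsupp.prod_add_index' (fun _ => pow_zero _) (fun _ _ _ => pow_add _ _ _), h5, sub_self]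
    set ε := w (α + single i 1) 0 α (single i 1) with hε
    have hεL : ε ∈ L0 := hkap _ _ (by rw [deg_e]; exact hα)
    have hadm : ∀ j, Adm d (α + single i 1) (single j 1) α (single i 1 + single j 1) := by
      intro j
      refine ⟨by rw [map_add, deg_e]; exact hα, by rw [deg_e]; omega, by omega,
        by rw [map_add, deg_e, deg_e]; omega, by rw [add_assoc]⟩
    have hcoord : ∀ j, ∀ y, Rz d w y →
        y (single j 1) = w (α + single i 1) (single j 1) α (single i 1 + single j 1) / ε := by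
      intro j y hy
      have e1 := hy.2 _ _ _ _ (hadm j)
      have e2 := hy.kap (α := α) (β := single i 1) (by rw [deg_e]; exact hα)
      have e3 := hy.kap (α := single i 1) (β := single j 1) (by rw [deg_e, deg_e]; omega)
      rw [hlow i j, zero_add] at e3
      rw [← hε] at e2
      rw [e2, e3] at e1
      rw [eq_div_iff hαi, ← e1]
      ring
    refine ⟨0, zero_mem _, 0, zero_mem _, fun _ => 0, ?_⟩
    intro γ hγ
    obtain ⟨N, hN⟩ : ∃ N, γ.degree = N := ⟨_, rfl⟩
    induction N generalizing γ with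
    | zero =>
      have h1 : γ = 0 := by
        rwa [Finsupp.degree_eq_zero_iff] at hN
      subst h1
      exact ⟨1, one_mem _, 0, zero_mem _, fun y hy => ⟨by ring, by rw [hy.1]; ring⟩⟩
    | succ N ih =>
      have hne' : γ ≠ 0 := by
        rintro rfl
        rw [map_zero] at hN
        omega
      obtain ⟨k, γ', rfl⟩ := exists_pred hne'
      rw [map_add, deg_e] at hN hγ
      obtain ⟨C, hC, C', hC', h1⟩ := ih γ' (by omega) (by omega)
      refine ⟨w (γ' + single k 1) 0 γ' (single k 1) +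
        C * (w (α + single i 1) (single k 1) α (single i 1 + single k 1) / ε),
        add_mem (hkap _ _ (by rw [deg_e]; exact hγ)) (mul_mem hC (div_mem (hw _ _ _ _ (hadm k))
          hεL)), 0, zero_mem _, fun y hy => ⟨by ring, ?_⟩⟩
      obtain ⟨h2, h3⟩ := h1 y hy
      rw [hy.kap (by rw [deg_e]; exact hγ), h3, hcoord k y hy]
      ring

end Pool.Agent.N111.QC
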