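import Pool.Agent.N111.QC.Alg
import Pool.Agent.N111.QC.Ver

/-!
The quadrics attached to an affine scheme.
-/

set_option autoImplicit false

namespace Pool.Agent.N111.QC

open MvPolynomial

/-- the exponents of the monomials of degree at most `d` -/
abbrev Mon (σ : Type) (d : ℕ) : Type := {α : σ →₀ ℕ // α.degree ≤ d}

instance {σ : Type} [Finite σ] {d : ℕ} : Finite (Mon σ d) :=
  (Finsupp.finite_of_degree_le (σ := σ) d).to_subtype

noncomputable instance {σ : Type} [Finite σ] {d : ℕ} : Fintype (Mon σ d) := Fintype.ofFinite _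

/-- the pairs of pairs of monomials with the same product -/
abbrev Quad (σ : Type) (d : ℕ) : Type :=
  {q : (Mon σ d × Mon σ d) × Mon σ d × Mon σ d // (q.1.1 : σ →₀ ℕ) + q.1.2 = q.2.1 + q.2.2}

/-- the indices of the equations -/
abbrev TI (ι σ : Type) (d : ℕ) : Type := (Option ι × Option (Mon σ d)) ⊕ Quad σ d

noncomputable instance {ι σ : Type} [Finite ι] [Finite σ] {d : ℕ} : Fintype (TI ι σ d) :=
  Fintype.ofFinite _

section

variable {O ι σ : Type} [CommRing O] [Finite ι] [Finite σ]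

/-- The equations of degree one: `y_0 = 1`, and `∑ c_α y_α = 0` for the equations
`f_i = ∑ c_α x ^ α`. -/
noncomputable def lin (f : ι → MvPolynomial σ O) (d : ℕ) :
    Option ι → MvPolynomial (Mon σ d) O
  | none => X (⟨0, by simp⟩ : Mon σ d) - 1
  | some i => ∑ α : Mon σ d, C ((f i).coeff α) * X α

/-- The equations of the image of `{f = 0}` under the Veronese map `y_α = x ^ α`, `|α| ≤ d`: the
linear equations, their products with the variables, and the equations `y_α y_β = y_γ y_δ` for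
`α + β = γ + δ`. -/
noncomputable def eqs (f : ι → MvPolynomial σ O) (d : ℕ) :
    TI ι σ d → MvPolynomial (Mon σ d) O
  | Sum.inl (a, none) => lin f d a
  | Sum.inl (a, some β) => lin f d a * X β
  | Sum.inr q => X q.1.1.1 * X q.1.1.2 - X q.1.2.1 * X q.1.2.2

/-- the number of the equations -/
noncomputable def num (ι σ : Type) [Finite ι] [Finite σ] (d : ℕ) : ℕ := Fintype.card (TI ι σ d)

/-- an enumeration of the equations -/
noncomputable def enum (ι σ : Type) [Finite ι] [Finite σ] (d : ℕ) :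
    Fin (num ι σ d) ≃ TI ι σ d := (Fintype.equivFin _).symm

/-- The polynomial `1 + l T_1 + l ^ 2 T_2 + … + l ^ M T_M`, where `T_1, …, T_M` are the equations. -/
noncomputable def quadric (f : ι → MvPolynomial σ O) (d l : ℕ) : MvPolynomial (Mon σ d) O :=
  1 + ∑ i : Fin (num ι σ d), C ((l : O) ^ ((i : ℕ) + 1)) * eqs f d (enum ι σ d i)

end

/-! ### values -/

section

variable {O ι σ R : Type} [CommRing O] [Finite ι] [Finite σ] [CommRing R] {f : ι → MvPolynomial σ O}
  {d : ℕ} (φ : O →+* R)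

/-- the linear form of an equation -/
noncomputable def lv (f : ι → MvPolynomial σ O) (y : Mon σ d → R) (i : ι) : R :=
  ∑ α : Mon σ d, φ ((f i).coeff α) * y α

theorem lin_none (y : Mon σ d → R) : eval₂ φ y (lin f d none) = y ⟨0, by simp⟩ - 1 := by
  simp [lin]

theorem lin_some (y : Mon σ d → R) (i : ι) : eval₂ φ y (lin f d (some i)) = lv φ f y i := by
  simp only [lin, lv, eval₂_sum, eval₂_mul, eval₂_C, eval₂_X]

/-- the extension of a point to all exponents -/
noncomputable def ext (y : Mon σ d → R) (α : σ →₀ ℕ) : R :=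
  open Classical in if h : α.degree ≤ d then y ⟨α, h⟩ else 0

theorem ext_mem (y : Mon σ d → R) {α : σ →₀ ℕ} (h : α.degree ≤ d) : ext y α = y ⟨α, h⟩ := dif_pos h

theorem ext_coe (y : Mon σ d → R) (α : Mon σ d) : ext y α = y α := ext_mem y α.2

/-- the values of the quadrics -/
theorem quadric_val (y : Mon σ d → R) (l : ℕ) : eval₂ φ y (quadric f d l) =
    1 + ∑ i : Fin (num ι σ d), (l : R) ^ ((i : ℕ) + 1) * eval₂ φ y (eqs f d (enum ι σ d i)) := by
  rw [quadric, eval₂_add, eval₂_one, eval₂_sum]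
  congr 1
  refine Finset.sum_congr rfl fun i _ => ?_
  rw [eval₂_mul, eval₂_C, map_pow, map_natCast]

/-- the coefficients of the quadrics as polynomials in `l` -/
noncomputable def cf (f : ι → MvPolynomial σ O) (y : Mon σ d → R) : Fin (num ι σ d + 1) → R :=
  Fin.cons 1 fun i => eval₂ φ y (eqs f d (enum ι σ d i))

theorem quadric_pv {K : Type} [Field K] (φ : O →+* K) (y : Mon σ d → K) (l : ℕ) :
    eval₂ φ y (quadric f d l) = pv (cf φ f y) (l : K) := by
  rw [quadric_val, pv, Fin.sum_univ_succ]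
  simp [cf]

/-- the points where all the equations hold -/
theorem zero_iff (hd : 1 ≤ d) (hf : ∀ i, (f i).totalDegree ≤ d) (y : Mon σ d → R) :
    (∀ t, eval₂ φ y (eqs f d t) = 0) ↔
      (∀ i, eval₂ φ (fun j => y ⟨Finsupp.single j 1, by rw [deg_e]; exact hd⟩) (f i) = 0) ∧
      ∀ α : Mon σ d, y α = (α : σ →₀ ℕ).prod fun j m =>
        y ⟨Finsupp.single j 1, by rw [deg_e]; exact hd⟩ ^ m := by
  classical
  have : Fintype σ := Fintype.ofFinite σ
  have hlin : (∀ α : Mon σ d, y α = (α : σ →₀ ℕ).prod fun j m =>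
      y ⟨Finsupp.single j 1, by rw [deg_e]; exact hd⟩ ^ m) → ∀ i, lv φ f y i =
        eval₂ φ (fun j => y ⟨Finsupp.single j 1, by rw [deg_e]; exact hd⟩) (f i) := by
    intro hy i
    rw [eval₂_eq', lv]
    have h1 : ∀ α ∈ (f i).support, α.degree ≤ d := fun α hα => by
      have h2 := le_totalDegree hα
      rw [Finsupp.degree_eq_sum]
      rw [Finsupp.sum_fintype _ _ (fun _ => rfl)] at h2
      exact h2.trans (hf i)
    have h3 : ∑ α : Mon σ d, φ ((f i).coeff α) * y α =
        ∑ α ∈ (Finset.univ : Finset (Mon σ d)).map ⟨Subtype.val, Subtype.val_injective⟩,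
          φ ((f i).coeff α) * ext y α := by
      rw [Finset.sum_map]
      exact Finset.sum_congr rfl fun α _ => by
        change _ = φ ((f i).coeff α) * ext y α
        rw [ext_coe]
    rw [h3]
    symm
    apply Finset.sum_subset_zero_on_sdiff
    · intro α hα
      rw [Finset.mem_map]
      exact ⟨⟨α, h1 α hα⟩, Finset.mem_univ _, rfl⟩
    · intro α hα
      rw [Finset.mem_sdiff, notMem_support_iff] at hα
      rw [hα.2, map_zero, zero_mul]
    · intro α hα
      rw [ext_mem y (h1 α hα), hy ⟨α, h1 α hα⟩]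
      congr 1
      rw [Finsupp.prod_fintype _ _ (fun _ => pow_zero _)]
  constructor
  · intro h
    have h0 : y ⟨0, by simp⟩ = 1 := by
      have h1 := h (Sum.inl (none, none))
      change eval₂ φ y (lin f d none) = 0 at h1
      rw [lin_none] at h1
      exact sub_eq_zero.1 h1
    have hq : Rz d (fun _ _ _ _ => (0 : R)) (ext y) := by
      refine ⟨by rw [ext_mem y (by simp), h0], fun α β γ δ ⟨h1, h2, h3, h4, h5⟩ => ?_⟩
      have h6 := h (Sum.inr ⟨((⟨α, h1⟩, ⟨β, h2⟩), ⟨γ, h3⟩, ⟨δ, h4⟩), h5⟩)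
      simp only [eqs, eval₂_sub, eval₂_mul, eval₂_X] at h6
      rw [ext_mem y h1, ext_mem y h2, ext_mem y h3, ext_mem y h4]
      exact h6
    have hy : ∀ α : Mon σ d, y α = (α : σ →₀ ℕ).prod fun j m =>
        y ⟨Finsupp.single j 1, by rw [deg_e]; exact hd⟩ ^ m := by
      intro α
      have h1 := hq.mult (fun _ _ _ => rfl) α α.2
      rw [ext_coe] at h1
      rw [h1]
      refine Finsupp.prod_congr fun j _ => ?_
      rw [ext_mem y (by rw [deg_e]; exact hd)]
    refine ⟨fun i => ?_, hy⟩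
    rw [← hlin hy i]
    have h1 := h (Sum.inl (some i, none))
    change eval₂ φ y (lin f d (some i)) = 0 at h1
    rwa [lin_some] at h1
  · rintro ⟨h1, hy⟩ t
    have hl : ∀ a, eval₂ φ y (lin f d a) = 0 := by
      rintro (_ | i)
      · rw [lin_none, hy]
        simp
      · rw [lin_some, hlin hy, h1]
    rcases t with ⟨a, _ | β⟩ | q
    · exact hl a
    · change eval₂ φ y (lin f d a * X β) = 0
      rw [eval₂_mul, hl, zero_mul]
    · simp only [eqs, eval₂_sub, eval₂_mul, eval₂_X]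
      rw [hy q.1.1.1, hy q.1.1.2, hy q.1.2.1, hy q.1.2.2,
        ← Finsupp.prod_add_index' (fun _ => pow_zero _) (fun _ _ _ => pow_add _ _ _),
        ← Finsupp.prod_add_index' (fun _ => pow_zero _) (fun _ _ _ => pow_add _ _ _), q.2, sub_self]

end

/-! ### fibres -/

section

variable {O ι σ Ω : Type} [CommRing O] [Finite ι] [Finite σ] [Field Ω] {f : ι → MvPolynomial σ O}
  {d : ℕ} (φ : O →+* Ω)

theorem fib_core (hd : 4 ≤ d) (L0 : Subfield Ω) (v : TI ι σ d → Ω) (hv : ∀ t, v t ∈ L0)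
    (hne : ∃ t, v t ≠ 0) :
    ∃ b ∈ L0, ∃ c ∈ L0, ∃ s : (Mon σ d → Ω) → Ω, ∀ α : Mon σ d, ∃ C ∈ L0, ∃ C' ∈ L0,
      ∀ y : Mon σ d → Ω, (∀ t, eval₂ φ y (eqs f d t) = v t) →
        s y ^ 2 = b * s y + c ∧ y α = C + C' * s y := by
  classical
  by_cases hex : ∃ y : Mon σ d → Ω, ∀ t, eval₂ φ y (eqs f d t) = v t
  swap
  · exact ⟨0, zero_mem _, 0, zero_mem _, fun _ => 0, fun γ => ⟨0, zero_mem _, 0, zero_mem _,
      fun y hy => absurd ⟨y, hy⟩ hex⟩⟩
  obtain ⟨y0, hy0⟩ := hex
  by_cases hA : ∃ a, v (Sum.inl (a, none)) ≠ 0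
  · obtain ⟨a, ha⟩ := hA
    refine ⟨0, zero_mem _, 0, zero_mem _, fun _ => 0, fun γ => ⟨v (Sum.inl (a, some γ)) /
      v (Sum.inl (a, none)), div_mem (hv _) (hv _), 0, zero_mem _, fun y hy => ⟨by ring, ?_⟩⟩⟩
    have h1 := hy (Sum.inl (a, none))
    have h2 := hy (Sum.inl (a, some γ))
    change eval₂ φ y (lin f d a) = _ at h1
    change eval₂ φ y (lin f d a * X γ) = _ at h2
    rw [eval₂_mul, eval₂_X, h1] at h2
    rw [← h2]
    field_simp
    ring
  · push Not at hA
    have h00 : ∀ y : Mon σ d → Ω, (∀ t, eval₂ φ y (eqs f d t) = v t) → y ⟨0, by simp⟩ = 1 := by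
      intro y hy
      have h1 := hy (Sum.inl (none, none))
      change eval₂ φ y (lin f d none) = _ at h1
      rw [lin_none, hA] at h1
      exact sub_eq_zero.1 h1
    let w : (σ →₀ ℕ) → (σ →₀ ℕ) → (σ →₀ ℕ) → (σ →₀ ℕ) → Ω := fun α β γ δ =>
      if h : Adm d α β γ δ then
        v (Sum.inr ⟨((⟨α, h.1⟩, ⟨β, h.2.1⟩), ⟨γ, h.2.2.1⟩, ⟨δ, h.2.2.2.1⟩), h.2.2.2.2⟩) else 0
    have hw : ∀ α β γ δ (h : Adm d α β γ δ), w α β γ δ =
        v (Sum.inr ⟨((⟨α, h.1⟩, ⟨β, h.2.1⟩), ⟨γ, h.2.2.1⟩, ⟨δ, h.2.2.2.1⟩), h.2.2.2.2⟩) :=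
      fun α β γ δ h => dif_pos h
    have hrz : ∀ y : Mon σ d → Ω, (∀ t, eval₂ φ y (eqs f d t) = v t) → Rz d w (ext y) := by
      intro y hy
      refine ⟨by rw [ext_mem y (by simp), h00 y hy], fun α β γ δ h => ?_⟩
      rw [hw _ _ _ _ h, ← hy]
      simp only [eqs, eval₂_sub, eval₂_mul, eval₂_X]
      rw [ext_mem y h.1, ext_mem y h.2.1, ext_mem y h.2.2.1, ext_mem y h.2.2.2.1]
    obtain ⟨b, hb, c, hc, s, hs⟩ := core (w := w) L0 hd (fun α β γ δ h => by
        rw [hw _ _ _ _ h]; exact hv _) (by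
      obtain ⟨t, ht⟩ := hne
      rcases t with ⟨a, _ | β⟩ | q
      · exact absurd (hA a) ht
      · exfalso
        apply ht
        rw [← hy0]
        change eval₂ φ y0 (lin f d a * X β) = 0
        have h1 := hy0 (Sum.inl (a, none))
        change eval₂ φ y0 (lin f d a) = _ at h1
        rw [eval₂_mul, h1, hA, zero_mul]
      · have hq : Adm d (q.1.1.1 : σ →₀ ℕ) q.1.1.2 q.1.2.1 q.1.2.2 :=
          ⟨q.1.1.1.2, q.1.1.2.2, q.1.2.1.2, q.1.2.2.2, q.2⟩
        exact ⟨_, _, _, _, hq, by rw [hw _ _ _ _ hq]; exact ht⟩)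
    refine ⟨b, hb, c, hc, fun y => s (ext y), fun α => ?_⟩
    obtain ⟨C, hC, C', hC', h1⟩ := hs α α.2
    refine ⟨C, hC, C', hC', fun y hy => ?_⟩
    obtain ⟨h2, h3⟩ := h1 _ (hrz y hy)
    exact ⟨h2, by rw [← ext_coe y α, h3]⟩

/-- **The fibres outside of the variety are finite.** -/
theorem fib_finite (hd : 4 ≤ d) (v : TI ι σ d → Ω) (hne : ∃ t, v t ≠ 0) :
    {y : Mon σ d → Ω | ∀ t, eval₂ φ y (eqs f d t) = v t}.Finite := by
  classical
  obtain ⟨b, -, c, -, s, hs⟩ := fib_core (f := f) φ hd ⊤ v (fun _ => Subfield.mem_top _) hne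
  choose C _ C' _ h using hs
  let P : Polynomial Ω := Polynomial.X ^ 2 - Polynomial.C b * Polynomial.X - Polynomial.C c
  have hP : P ≠ 0 := by
    intro h0
    have h1 := congrArg (fun p => Polynomial.coeff p 2) h0
    simp [P, Polynomial.coeff_X, Polynomial.coeff_C] at h1
  refine ((P.roots.toFinset.finite_toSet).image fun s α => C α + C' α * s).subset ?_
  intro y hy
  refine ⟨s y, ?_, ?_⟩
  · rw [Finset.mem_coe, Multiset.mem_toFinset, Polynomial.mem_roots hP]
    have h1 := (h ⟨0, by simp⟩ y hy).1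
    simp only [P, Polynomial.IsRoot.def, Polynomial.eval_sub, Polynomial.eval_pow,
      Polynomial.eval_X, Polynomial.eval_mul, Polynomial.eval_C]
    linear_combination h1
  · funext α
    exact (h α y hy).2.symm

/-- the coordinates are algebraic over the values of the equations -/
theorem fib_alg (hd : 4 ≤ d) (L0 : Subfield Ω) (y : Mon σ d → Ω)
    (hv : ∀ t, eval₂ φ y (eqs f d t) ∈ L0) (hne : ∃ t, eval₂ φ y (eqs f d t) ≠ 0) (α : Mon σ d) :
    IsAlgebraic L0 (y α) := by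
  obtain ⟨b, hb, c, hc, s, hs⟩ := fib_core (f := f) φ hd L0 (fun t => eval₂ φ y (eqs f d t)) hv hne
  obtain ⟨C, hC, C', hC', h⟩ := hs α
  obtain ⟨h1, h2⟩ := h y fun _ => rfl
  have h3 : IsIntegral L0 (s y) := by
    refine ⟨Polynomial.X ^ 2 - Polynomial.C (⟨b, hb⟩ : L0) * Polynomial.X -
      Polynomial.C (⟨c, hc⟩ : L0), ?_, ?_⟩
    · rw [sub_sub]
      refine Polynomial.monic_X_pow_sub ?_
      compute_degree!
    · simp only [Polynomial.eval₂_sub, Polynomial.eval₂_pow, Polynomial.eval₂_X,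
        Polynomial.eval₂_mul, Polynomial.eval₂_C]
      change s y ^ 2 - b * s y - c = 0
      linear_combination h1
  rw [h2]
  have h4 : IsIntegral L0 (C : Ω) := isIntegral_algebraMap (x := (⟨C, hC⟩ : L0))
  have h5 : IsIntegral L0 (C' : Ω) := isIntegral_algebraMap (x := (⟨C', hC'⟩ : L0))
  exact (h4.add (h5.mul h3)).isAlgebraic

end

end Pool.Agent.N111.QC
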