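import Pool.Agent.N111.QC.Nbh

/-!
The two families of functions: neighbourhoods of closed subschemes, and quadrics.
-/

set_option autoImplicit false

namespace Pool.Agent.N111.QC

open MvPolynomial

variable {B A C : Type} [CommRing B] [CommRing A] [CommRing C] [Algebra B A] [Algebra B C]

/-- **The functions of a closed subscheme, and their products with the coordinates.** -/
theorem sep_gen {I : Ideal A} {ι κ : Type} (f : ι → A) (hf : Ideal.span (Set.range f) = I)
    (a : κ → A) (ha : Algebra.adjoin B (Set.range a) = ⊤) :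
    Sep B I fun t : ι × Option κ => f t.1 * t.2.elim 1 a := by
  intro Ω _ _ hΩ
  have key : ∀ p : A →ₐ[B] Ω, ¬ I ≤ RingHom.ker p → ∃ i, p (f i) ≠ 0 := by
    intro p hI
    by_contra hc
    push Not at hc
    apply hI
    rw [← hf, Ideal.span_le]
    rintro _ ⟨i, rfl⟩
    exact hc i
  refine ⟨fun v => ?_, fun L0 hB hL p hI hp b => ?_⟩
  · refine Set.Subsingleton.finite ?_
    rintro p ⟨hI, hp⟩ q ⟨hJ, hq⟩
    obtain ⟨i, hi⟩ := key p hI
    have h1 : ∀ k, p (a k) = q (a k) := by
      intro k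
      have e1 := hp (i, some k)
      have e2 := hq (i, some k)
      have e3 := hp (i, none)
      have e4 := hq (i, none)
      simp only [Option.elim_some, Option.elim_none, mul_one, map_mul] at e1 e2 e3 e4
      rw [← e4] at e3
      rw [← e2, e3] at e1
      rw [e3] at hi
      exact mul_left_cancel₀ hi e1
    have h2 : ∀ x ∈ Algebra.adjoin B (Set.range a), p x = q x := by
      intro x hx
      induction hx using Algebra.adjoin_induction with
      | mem x hx => obtain ⟨k, rfl⟩ := hx; exact h1 k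
      | algebraMap r => rw [p.commutes, q.commutes]
      | add x y _ _ h1 h2 => rw [map_add, map_add, h1, h2]
      | mul x y _ _ h1 h2 => rw [map_mul, map_mul, h1, h2]
    exact AlgHom.ext fun x => h2 x (by rw [ha]; trivial)
  · obtain ⟨i, hi⟩ := key p hI
    have e3 := hp (i, none)
    simp only [Option.elim_none, mul_one] at e3
    have h1 : ∀ k, p (a k) ∈ L0 := by
      intro k
      have e1 := hp (i, some k)
      simp only [Option.elim_some, map_mul] at e1
      have h2 := div_mem e1 e3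
      rwa [mul_div_cancel_left₀ _ hi] at h2
    have h2 : ∀ x ∈ Algebra.adjoin B (Set.range a), p x ∈ L0 := by
      intro x hx
      induction hx using Algebra.adjoin_induction with
      | mem x hx => obtain ⟨k, rfl⟩ := hx; exact h1 k
      | algebraMap r => rw [p.commutes]; exact hB r
      | add x y _ _ h1 h2 => rw [map_add]; exact add_mem h1 h2
      | mul x y _ _ h1 h2 => rw [map_mul]; exact mul_mem h1 h2
    exact h2 b (by rw [ha]; trivial)

section quad

variable {σ ι : Type} [Finite σ] [Finite ι] {f : ι → MvPolynomial σ B} {d : ℕ}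
  (ρ : MvPolynomial σ B →ₐ[B] C)

/-- the functions `x ^ α` on the affine scheme -/
noncomputable def ver (d : ℕ) (α : Mon σ d) : C := ρ (monomial (α : σ →₀ ℕ) 1)

/-- the Veronese embedding of the affine scheme -/
noncomputable def veh (d : ℕ) : MvPolynomial (Mon σ d) B →ₐ[B] C := aeval (ver ρ d)

theorem ver_e (hd : 1 ≤ d) (j : σ) :
    ver ρ d ⟨Finsupp.single j 1, by rw [deg_e]; exact hd⟩ = ρ (X j) := rfl

theorem veh_surj (hd : 1 ≤ d) (hρ : Function.Surjective ρ) : Function.Surjective (veh ρ d) := by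
  have h1 : ∀ q : MvPolynomial σ B, ρ q ∈ (veh ρ d).range := by
    intro q
    induction q using MvPolynomial.induction_on with
    | C b =>
      rw [← MvPolynomial.algebraMap_eq, AlgHom.commutes]
      exact (veh ρ d).range.algebraMap_mem b
    | add q r h1 h2 => rw [map_add]; exact add_mem h1 h2
    | mul_X q j h1 =>
      rw [map_mul]
      refine mul_mem h1 ⟨X ⟨Finsupp.single j 1, by rw [deg_e]; exact hd⟩, ?_⟩
      change aeval (ver ρ d) _ = _
      rw [aeval_X, ver_e ρ hd]
  intro c
  obtain ⟨q, rfl⟩ := hρ c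
  exact h1 q

theorem veh_eqs (hd : 1 ≤ d) (hf : ∀ i, (f i).totalDegree ≤ d) (hρf : ∀ i, ρ (f i) = 0)
    (t : TI ι σ d) : veh ρ d (eqs f d t) = 0 := by
  have h1 := (zero_iff (algebraMap B C) hd hf (ver ρ d)).2 ⟨fun i => ?_, fun α => ?_⟩ t
  · exact h1
  · have h2 : eval₂ (algebraMap B C) (fun j => ver ρ d ⟨Finsupp.single j 1, by rw [deg_e]; exact hd⟩)
        (f i) = ρ (f i) := by
      have h3 : ρ = aeval (fun j => ρ (X j)) := by
        apply MvPolynomial.algHom_ext
        intro j
        rw [aeval_X]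
      conv_rhs => rw [h3]
      rfl
    rw [h2, hρf]
  · change ρ (monomial (α : σ →₀ ℕ) 1) = (α : σ →₀ ℕ).prod fun j m => ρ (X j) ^ m
    rw [monomial_eq, C_1, one_mul, Finsupp.prod, map_prod]
    exact Finset.prod_congr rfl fun j _ => map_pow _ _ _

theorem ker_le (hd : 1 ≤ d) (hf : ∀ i, (f i).totalDegree ≤ d)
    (hρ : RingHom.ker ρ = Ideal.span (Set.range f)) {Ω : Type} [CommRing Ω] [Algebra B Ω]
    (p : MvPolynomial (Mon σ d) B →ₐ[B] Ω) (hp : ∀ t, p (eqs f d t) = 0) :
    RingHom.ker (veh ρ d) ≤ RingHom.ker p := by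
  have hpa : p = aeval (fun α => p (X α)) := by
    apply MvPolynomial.algHom_ext
    intro j
    rw [aeval_X]
  have h0 : ∀ t, eval₂ (algebraMap B Ω) (fun α => p (X α)) (eqs f d t) = 0 := by
    intro t
    have h1 := hp t
    rw [hpa] at h1
    exact h1
  obtain ⟨h1, h2⟩ := (zero_iff (algebraMap B Ω) hd hf _).1 h0
  -- the point of `C`
  let x : σ → Ω := fun j => p (X ⟨Finsupp.single j 1, by rw [deg_e]; exact hd⟩)
  have hx : ∀ q ∈ RingHom.ker ρ, aeval x q = 0 := by
    intro q hq
    rw [hρ] at hq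
    have h3 : Ideal.span (Set.range f) ≤ RingHom.ker (aeval x : MvPolynomial σ B →ₐ[B] Ω) := by
      rw [Ideal.span_le]
      rintro _ ⟨i, rfl⟩
      exact h1 i
    exact h3 hq
  intro a ha
  let θ : MvPolynomial (Mon σ d) B →ₐ[B] MvPolynomial σ B :=
    aeval fun α => monomial (α : σ →₀ ℕ) 1
  have h3 : veh ρ d = ρ.comp θ := by
    apply MvPolynomial.algHom_ext
    intro α
    change aeval (ver ρ d) (X α) = ρ (aeval _ (X α))
    rw [aeval_X, aeval_X, ver]
  have h4 : p = (aeval x).comp θ := by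
    apply MvPolynomial.algHom_ext
    intro α
    change _ = aeval x (aeval _ (X α))
    rw [aeval_X, aeval_monomial, map_one, one_mul]
    exact h2 α
  rw [RingHom.mem_ker] at ha ⊢
  rw [h4]
  change aeval x (θ a) = 0
  apply hx
  rw [RingHom.mem_ker]
  rw [h3] at ha
  exact ha

/-- **The equations of degree two separate the points off the affine scheme.** -/
theorem sep_quad (hd : 4 ≤ d) (hf : ∀ i, (f i).totalDegree ≤ d)
    (hρ : RingHom.ker ρ = Ideal.span (Set.range f)) :
    Sep B (RingHom.ker (veh ρ d)) (eqs f d) := by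
  intro Ω _ _ hΩ
  have hpa : ∀ p : MvPolynomial (Mon σ d) B →ₐ[B] Ω, p = aeval (fun α => p (X α)) := by
    intro p
    apply MvPolynomial.algHom_ext
    intro j
    rw [aeval_X]
  have hev : ∀ (p : MvPolynomial (Mon σ d) B →ₐ[B] Ω) (q : MvPolynomial (Mon σ d) B),
      p q = eval₂ (algebraMap B Ω) (fun α => p (X α)) q := by
    intro p q
    conv_lhs => rw [hpa p]
    rfl
  have key : ∀ p : MvPolynomial (Mon σ d) B →ₐ[B] Ω, ¬ RingHom.ker (veh ρ d) ≤ RingHom.ker p →
      ∃ t, p (eqs f d t) ≠ 0 := by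
    intro p hI
    by_contra hc
    push Not at hc
    exact hI (ker_le ρ (by omega) hf hρ p hc)
  refine ⟨fun v => ?_, fun L0 hB hL p hI hp b => ?_⟩
  · by_cases hv : ∃ t, v t ≠ 0
    · refine Set.Finite.of_finite_image (f := fun (p : MvPolynomial (Mon σ d) B →ₐ[B] Ω)
        (α : Mon σ d) => p (X α)) ((fib_finite (f := f) (algebraMap B Ω) hd v hv).subset ?_) ?_
      · rintro _ ⟨p, ⟨-, hp⟩, rfl⟩ t
        rw [← hev, hp]
      · intro p _ q _ h
        rw [hpa p, hpa q]
        exact congrArg aeval h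
    · push Not at hv
      refine Set.Finite.subset Set.finite_empty ?_
      rintro p ⟨hI, hp⟩
      obtain ⟨t, ht⟩ := key p hI
      exact ht (by rw [hp, hv])
  · obtain ⟨t0, ht0⟩ := key p hI
    have h1 : ∀ α, p (X α) ∈ L0 := fun α => hL _ (fib_alg (f := f) (algebraMap B Ω) hd L0
      (fun α => p (X α)) (fun t => by rw [← hev]; exact hp t) ⟨t0, by rw [← hev]; exact ht0⟩ α)
    have h2 : ∀ q : MvPolynomial (Mon σ d) B, p q ∈ L0 := by
      intro q
      induction q using MvPolynomial.induction_on with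
      | C b => rw [← algebraMap_eq, p.commutes]; exact hB b
      | add q r h1 h2 => rw [map_add]; exact add_mem h1 h2
      | mul_X q j h3 => rw [map_mul]; exact mul_mem h3 (h1 j)
    exact h2 b

theorem eqs_deg (f : ι → MvPolynomial σ B) (d : ℕ) (t : TI ι σ d) :
    (eqs f d t).totalDegree ≤ 2 := by
  have hX : ∀ α : Mon σ d, (X α : MvPolynomial (Mon σ d) B).totalDegree ≤ 1 := fun α => by
    have h1 := totalDegree_monomial_le (Finsupp.single α 1) (1 : B)
    rw [Finsupp.sum_single_index rfl] at h1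
    exact h1
  have hl : ∀ a, (lin f d a).totalDegree ≤ 1 := by
    rintro (_ | i)
    · refine (totalDegree_sub _ _).trans (max_le (hX _) ?_)
      simp
    · refine totalDegree_finsetSum_le fun α _ => (totalDegree_mul _ _).trans ?_
      rw [totalDegree_C, zero_add]
      exact hX α
  rcases t with ⟨a, _ | β⟩ | q
  · exact (hl a).trans (by omega)
  · exact (totalDegree_mul _ _).trans (add_le_add (hl a) (hX β))
  · exact (totalDegree_sub _ _).trans (max_le
      ((totalDegree_mul _ _).trans (add_le_add (hX _) (hX _)))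
      ((totalDegree_mul _ _).trans (add_le_add (hX _) (hX _))))

end quad

/-- transport -/
theorem Sep.equiv {A' ι : Type} [CommRing A'] [Algebra B A'] {π : A →ₐ[B] C} {T : ι → A}
    (E : A ≃ₐ[B] A') (h : Sep B (RingHom.ker π) T) :
    Sep B (RingHom.ker (π.comp (E.symm : A' →ₐ[B] A))) fun i => E (T i) := by
  intro Ω _ _ hΩ
  have h1 : ∀ p : A' →ₐ[B] Ω, RingHom.ker π ≤ RingHom.ker (p.comp (E : A →ₐ[B] A')) →
      RingHom.ker (π.comp (E.symm : A' →ₐ[B] A)) ≤ RingHom.ker p := by
    intro p hp x hx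
    have h2 : E.symm x ∈ RingHom.ker π := hx
    have h3 := hp h2
    rw [RingHom.mem_ker] at h3 ⊢
    change p (E (E.symm x)) = 0 at h3
    rwa [AlgEquiv.apply_symm_apply] at h3
  refine ⟨fun v => ?_, fun L0 hB hL p hI hp a => ?_⟩
  · refine Set.Finite.of_finite_image (f := fun p : A' →ₐ[B] Ω => p.comp (E : A →ₐ[B] A'))
      (((h Ω hΩ).1 v).subset ?_) ?_
    · rintro _ ⟨p, ⟨hI, hp⟩, rfl⟩
      exact ⟨fun h2 => hI (h1 p h2), hp⟩
    · intro p _ q _ hpq
      apply AlgHom.ext
      intro x
      have h2 := DFunLike.congr_fun hpq (E.symm x)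
      change p (E (E.symm x)) = q (E (E.symm x)) at h2
      rwa [AlgEquiv.apply_symm_apply] at h2
  · have h2 := (h Ω hΩ).2 L0 hB hL (p.comp (E : A →ₐ[B] A')) (fun h2 => hI (h1 p h2)) hp (E.symm a)
    change p (E (E.symm a)) ∈ L0 at h2
    rwa [AlgEquiv.apply_symm_apply] at h2

section final

variable [IsDomain B] [CharZero B]

/-- **Neighbourhoods.** -/
theorem exists_nbh [IsDomain A] [FaithfulSMul B A] [Algebra.FiniteType B A] {w : ℕ}
    (hw : Algebra.trdeg B A ≤ w) (I : Ideal A) (hI : I.FG) :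
    ∃ T : Fin w → A, (∀ i, T i ∈ I) ∧ Sep B I T := by
  classical
  obtain ⟨m, f, hf⟩ := Submodule.fg_iff_exists_fin_generating_family.1 hI
  obtain ⟨s, hs⟩ := (inferInstance : Algebra.FiniteType B A).out
  have ha : Algebra.adjoin B (Set.range (Subtype.val : s → A)) = ⊤ := by
    rw [Subtype.range_coe_subtype]
    exact hs
  have h1 := sep_gen (B := B) f hf (Subtype.val : s → A) ha
  let e := Fintype.equivFin (Fin m × Option s)
  set T0 : Fin m × Option s → A := fun t => f t.1 * t.2.elim 1 (Subtype.val : s → A) with hT0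
  obtain ⟨T, hT, hD⟩ := noether (B := B) hw _ fun i => T0 (e.symm i)
  have h2 : Sep B I fun i => T0 (e.symm i) := h1.det (Det.of_fun fun t => Or.inr ⟨e t, by
    rw [Equiv.symm_apply_apply]⟩)
  refine ⟨T, fun i => ?_, h2.det hD⟩
  have h3 : AddSubgroup.closure (Set.range fun i => T0 (e.symm i)) ≤ I.toAddSubgroup := by
    rw [AddSubgroup.closure_le]
    rintro _ ⟨j, rfl⟩
    change T0 (e.symm j) ∈ I
    rw [hT0]
    refine I.mul_mem_right _ ?_
    rw [← hf]
    exact Submodule.subset_span ⟨_, rfl⟩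
  exact h3 (hT i)

/-- **Quadrics.** -/
theorem exists_quad [IsNoetherianRing B] [Algebra.FiniteType B C] :
    ∃ (N : ℕ) (T : Fin N → MvPolynomial (Fin N) B) (π : MvPolynomial (Fin N) B →ₐ[B] C),
      Function.Surjective π ∧ (∀ i, (T i).totalDegree ≤ 2 ∧ π (T i) = 0) ∧
        Sep B (RingHom.ker π) T := by
  classical
  obtain ⟨n, ρ, hρ⟩ := Algebra.FiniteType.iff_quotient_mvPolynomial''.1
    (inferInstance : Algebra.FiniteType B C)
  obtain ⟨m, f, hf⟩ := Submodule.fg_iff_exists_fin_generating_family.1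
    (IsNoetherian.noetherian (RingHom.ker ρ))
  have hf' : RingHom.ker ρ = Ideal.span (Set.range f) := hf.symm
  let d : ℕ := max 4 (Finset.univ.sup fun i => (f i).totalDegree)
  have hd : 4 ≤ d := le_max_left _ _
  have hfd : ∀ i, (f i).totalDegree ≤ d := fun i =>
    (Finset.le_sup (f := fun i => (f i).totalDegree) (Finset.mem_univ i)).trans (le_max_right _ _)
  have hρf : ∀ i, ρ (f i) = 0 := fun i => by
    have h1 : f i ∈ RingHom.ker ρ := by
      rw [hf']
      exact Ideal.subset_span ⟨i, rfl⟩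
    exact h1
  have h1 := sep_quad ρ hd hfd hf'
  let e := Fintype.equivFin (Mon (Fin n) d)
  let E : MvPolynomial (Mon (Fin n) d) B ≃ₐ[B] MvPolynomial (Fin (Fintype.card (Mon (Fin n) d))) B :=
    renameEquiv B e
  let π := (veh ρ d).comp (E.symm : MvPolynomial (Fin (Fintype.card (Mon (Fin n) d))) B →ₐ[B]
    MvPolynomial (Mon (Fin n) d) B)
  have h2 : Sep B (RingHom.ker π) fun t => E (eqs f d t) := h1.equiv E
  have hw : Algebra.trdeg B (MvPolynomial (Fin (Fintype.card (Mon (Fin n) d))) B) ≤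
      (Fintype.card (Mon (Fin n) d) : ℕ) := by
    rw [MvPolynomial.trdeg_of_isDomain]
    simp
  obtain ⟨T, hT, hD⟩ := noether (B := B) hw _ fun i => E (eqs f d (enum (Fin m) (Fin n) d i))
  have h3 : Sep B (RingHom.ker π) fun i => E (eqs f d (enum (Fin m) (Fin n) d i)) :=
    h2.det (Det.of_fun fun t => Or.inr ⟨(enum (Fin m) (Fin n) d).symm t, by
      rw [Equiv.apply_symm_apply]⟩)
  refine ⟨_, T, π, (veh_surj ρ (by omega) hρ).comp E.symm.surjective, fun i => ?_, h3.det hD⟩
  have h4 : AddSubgroup.closure (Set.range fun i => E (eqs f d (enum (Fin m) (Fin n) d i))) ≤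
      ((restrictTotalDegree (Fin (Fintype.card (Mon (Fin n) d))) B 2).restrictScalars B ⊓
        LinearMap.ker π.toLinearMap).toAddSubgroup := by
    rw [AddSubgroup.closure_le]
    rintro _ ⟨j, rfl⟩
    refine ⟨?_, ?_⟩
    · change _ ∈ restrictTotalDegree _ B 2
      rw [mem_restrictTotalDegree]
      exact (totalDegree_rename_le _ _).trans (eqs_deg f d _)
    · change veh ρ d (E.symm (E (eqs f d _))) = 0
      rw [AlgEquiv.symm_apply_apply]
      exact veh_eqs ρ (by omega) hfd hρf _
  obtain ⟨h5, h6⟩ := h4 (hT i)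
  exact ⟨(mem_restrictTotalDegree _ _ _).1 h5, h6⟩

theorem gf_deg {N w : ℕ} {T : Fin w → MvPolynomial (Fin N) B}
    (hT : ∀ i, (T i).totalDegree ≤ 2) (l : Fin (2 * w)) : (gf T l).totalDegree ≤ 2 := by
  rw [gf, gfun]
  refine (totalDegree_add _ _).trans (max_le (by simp) ?_)
  refine totalDegree_finsetSum_le fun i _ => (totalDegree_mul _ _).trans ?_
  have h1 : ((((l : ℕ) + 1 : ℕ) : MvPolynomial (Fin N) B) ^ ((i : ℕ) + 1)).totalDegree = 0 := by
    rw [← map_natCast (C : B →+* MvPolynomial (Fin N) B), ← map_pow, totalDegree_C]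
  rw [h1, zero_add]
  exact hT i

end final

end Pool.Agent.N111.QC
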