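import Pool.Agent.N111.QC.Abs

/-!
The conjecture of Lang and Vojta for affine schemes and for neighbourhoods of closed subschemes.
-/

set_option autoImplicit false

namespace Pool.Agent.N111.QC

open MvPolynomial FF Pool.Agent.W602.GT

/-- All closed subvarieties of positive dimension of the affine scheme `Spec C` over the
algebraically closed field `K` are of log general type. Such a subvariety is given by its function
field `E` and by its generic point `p`; the places without centre on it are the places where some of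
the functions `p c` is not regular. -/
def AllLogGeneral (B K C : Type) [CommRing B] [Field K] [CommRing C] [Algebra B K] [Algebra B C] :
    Prop :=
  ∀ (E : Type) [Field E] [Algebra B E] [Algebra K E] [IsScalarTower B K E] (p : C →ₐ[B] E) (n : ℕ),
    IntermediateField.adjoin K (Set.range p) = ⊤ → 0 < n → Algebra.trdeg K E = n →
      LogGeneralType K E n fun P => ∃ c, ¬ P.Reg (p c)

/-- The conjecture of Lang and Vojta for the affine scheme `Spec C` over `B`: if all subvarieties are
of log general type then there are only finitely many sections over `B`. -/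
def LangVojta (B K C : Type) [CommRing B] [Field K] [CommRing C] [Algebra B K] [Algebra B C] :
    Prop :=
  AllLogGeneral B K C → Finite (C →ₐ[B] B)

/-- Everything on the open subscheme `{g ≠ 0}` of `Spec A` which is not contained in the closed
subscheme `V(I)` is as in the conjecture: there are only finitely many integral points outside of
`V(I)` over each finitely generated domain `R` which contains `B`, and all subvarieties of positive
dimension which are not contained in `V(I)` are of log general type. -/
def HyperbolicOff (B K : Type) {A ι : Type} [CommRing B] [Field K] [CommRing A] [Algebra B K]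
    [Algebra B A] (I : Ideal A) (g : ι → A) : Prop :=
  (∀ (R : Type) [CommRing R] [IsDomain R] [CharZero R] [Algebra.FiniteType ℤ R] [Algebra B R],
    Function.Injective (algebraMap B R) →
      {p : A →ₐ[B] R | (∀ l, IsUnit (p (g l))) ∧ ¬ I ≤ RingHom.ker p}.Finite) ∧
  ∀ (E : Type) [Field E] [Algebra B E] [Algebra K E] [IsScalarTower B K E] (p : A →ₐ[B] E) (n : ℕ),
    (∀ l, p (g l) ≠ 0) → ¬ I ≤ RingHom.ker p → IntermediateField.adjoin K (Set.range p) = ⊤ →
      0 < n → Algebra.trdeg K E = n →
        LogGeneralType K E n fun P => (∃ a, ¬ P.Reg (p a)) ∨ ∃ l, ¬ P.Reg (p (g l))⁻¹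

variable {B A C K : Type} [CommRing B] [CommRing A] [CommRing C] [Algebra B A] [Algebra B C]
  [Field K] [IsAlgClosed K] [CharZero K] [Algebra B K]

/-- the functions `1 + l T_0 + … + l ^ w T_{w - 1}` for `l = 1, …, 2 w` -/
def gf {w : ℕ} (T : Fin w → A) (l : Fin (2 * w)) : A := gfun T ((l : ℕ) + 1)

theorem gf_all {w : ℕ} {T : Fin w → A} {P : A → Prop} (h : ∀ l, P (gf T l)) (l : ℕ) (h1 : 1 ≤ l)
    (h2 : l ≤ 2 * w) : P (gfun T l) := by
  have h3 := h ⟨l - 1, by omega⟩
  rw [gf] at h3
  rwa [show ((⟨l - 1, by omega⟩ : Fin (2 * w)) : ℕ) + 1 = l by simp; omega] at h3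

theorem ord_of_reg {E : Type} [Field E] [Algebra K E] (P : Place K E) {x : E} (hx : x ≠ 0)
    (h1 : P.Reg x) (h2 : P.Reg x⁻¹) : P.ord x = 0 := by
  rw [P.reg_iff hx] at h1
  rw [P.reg_iff (inv_ne_zero hx), P.ord_inv] at h2
  omega

theorem hyp_off (hB : Function.Injective (algebraMap B K)) {I : Ideal A} {w : ℕ} {T : Fin w → A}
    (hT : Sep B I T) : HyperbolicOff B K I (gf T) := by
  refine ⟨fun R _ _ _ _ _ hR => ?_, fun E _ _ _ _ p n hne hI hgen hn htr => ?_⟩
  · refine (points_sep hT hR).subset ?_
    rintro p ⟨h1, h2⟩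
    exact ⟨gf_all (P := fun a => IsUnit (p a)) h1, h2⟩
  · have hne' := gf_all (P := fun a => p a ≠ 0) hne
    refine lgt_sep hT hB hn htr p hI hgen hne' _ (fun P hP => ?_)
    push Not at hP
    intro l h1 h2
    exact ord_of_reg P (hne' l h1 h2) (hP.1 _)
      (gf_all (P := fun a => P.Reg (p a)⁻¹) hP.2 l h1 h2)

section

variable {w : ℕ} {T : Fin w → A} (π : A →ₐ[B] C)

/-- the product of the functions -/
def gprod (T : Fin w → A) : A := ∏ l, gf T l

theorem pi_gf (hTI : ∀ i, π (T i) = 0) (l : ℕ) : π (gfun T l) = 1 := by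
  simp [gfun, hTI]

theorem pi_gprod (hTI : ∀ i, π (T i) = 0) : π (gprod T) = 1 := by
  rw [gprod, map_prod]
  exact Finset.prod_eq_one fun l _ => pi_gf π hTI _

/-- the restriction to `A` of a point of the localization -/
def res {Ω : Type} [CommRing Ω] [Algebra B Ω] (p : Localization.Away (gprod T) →ₐ[B] Ω) :
    A →ₐ[B] Ω :=
  p.comp (IsScalarTower.toAlgHom B A (Localization.Away (gprod T)))

theorem res_apply {Ω : Type} [CommRing Ω] [Algebra B Ω]
    (p : Localization.Away (gprod T) →ₐ[B] Ω) (a : A) :
    res p a = p (algebraMap A (Localization.Away (gprod T)) a) := rfl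

theorem res_inj {Ω : Type} [CommRing Ω] [Algebra B Ω] :
    Function.Injective (res : (Localization.Away (gprod T) →ₐ[B] Ω) → (A →ₐ[B] Ω)) := by
  intro p q h
  have h1 : (p : Localization.Away (gprod T) →+* Ω) = q := by
    refine IsLocalization.ringHom_ext (Submonoid.powers (gprod T)) ?_
    ext a
    exact DFunLike.congr_fun h a
  exact AlgHom.ext fun x => RingHom.congr_fun h1 x

theorem res_unit {Ω : Type} [CommRing Ω] [Algebra B Ω]
    (p : Localization.Away (gprod T) →ₐ[B] Ω) (l : Fin (2 * w)) : IsUnit (res p (gf T l)) := by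
  have h1 : IsUnit (algebraMap A (Localization.Away (gprod T)) (gprod T)) :=
    IsLocalization.Away.algebraMap_isUnit _
  have h2 : IsUnit (res p (gprod T)) := h1.map p
  rw [gprod, map_prod] at h2
  exact (IsUnit.prod_univ_iff.1 h2) l

/-- the values of a point of the localization for which the product is `1` -/
theorem res_range {E : Type} [Field E] [Algebra B E] (p : Localization.Away (gprod T) →ₐ[B] E)
    (d : Localization.Away (gprod T)) : ∃ (a : A) (n : ℕ), p d * res p (gprod T) ^ n = res p a := by
  obtain ⟨⟨a, ⟨_, n, rfl⟩⟩, h⟩ := IsLocalization.surj (Submonoid.powers (gprod T)) d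
  refine ⟨a, n, ?_⟩
  change d * algebraMap A (Localization.Away (gprod T)) (gprod T ^ n) =
    algebraMap A (Localization.Away (gprod T)) a at h
  rw [res_apply, res_apply, ← h, map_mul, map_pow, map_pow]

/-- the extension of a point of `C` -/
noncomputable def lft (hTI : ∀ i, π (T i) = 0) {Ω : Type} [CommRing Ω] [Algebra B Ω]
    (q : C →ₐ[B] Ω) : Localization.Away (gprod T) →ₐ[B] Ω :=
  IsLocalization.liftAlgHom (M := Submonoid.powers (gprod T)) (f := q.comp π) (by
    rintro ⟨_, n, rfl⟩
    simp only [map_pow, AlgHom.comp_apply, pi_gprod π hTI, map_one, one_pow]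
    exact isUnit_one)

theorem res_lft (hTI : ∀ i, π (T i) = 0) {Ω : Type} [CommRing Ω] [Algebra B Ω]
    (q : C →ₐ[B] Ω) : res (lft π hTI q) = q.comp π := by
  apply AlgHom.ext
  intro a
  rw [res_apply, lft]
  exact IsLocalization.lift_eq _ _

theorem lft_inj (hπ : Function.Surjective π) (hTI : ∀ i, π (T i) = 0) {Ω : Type} [CommRing Ω]
    [Algebra B Ω] : Function.Injective (lft π hTI : (C →ₐ[B] Ω) → _) := by
  intro q q' h
  have h1 := congrArg res h
  rw [res_lft, res_lft] at h1
  apply AlgHom.ext
  intro c
  obtain ⟨a, rfl⟩ := hπ c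
  exact DFunLike.congr_fun h1 a

/-- a point with values in `C` -/
theorem exists_lft (hπ : Function.Surjective π) (hTI : ∀ i, π (T i) = 0) {Ω : Type} [CommRing Ω]
    [Algebra B Ω] (p : Localization.Away (gprod T) →ₐ[B] Ω)
    (h : RingHom.ker π ≤ RingHom.ker (res p)) : ∃ q : C →ₐ[B] Ω, lft π hTI q = p := by
  let q0 : (A ⧸ RingHom.ker π) →ₐ[B] Ω := Ideal.Quotient.liftₐ _ (res p) fun a ha => h ha
  let e : (A ⧸ RingHom.ker π) ≃ₐ[B] C := Ideal.quotientKerAlgEquivOfSurjective hπ
  refine ⟨q0.comp (e.symm : C →ₐ[B] (A ⧸ RingHom.ker π)), res_inj ?_⟩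
  rw [res_lft]
  apply AlgHom.ext
  intro a
  have h1 : e.symm (π a) = Ideal.Quotient.mk _ a := by
    rw [AlgEquiv.symm_apply_eq]
    rfl
  change q0 (e.symm (π a)) = _
  rw [h1]
  rfl

theorem lft_bd (hπ : Function.Surjective π) (hTI : ∀ i, π (T i) = 0) {E : Type} [Field E]
    [Algebra B E] [Algebra K E] (q : C →ₐ[B] E) :
    (fun P : Place K E => ∃ c, ¬ P.Reg (q c)) = fun P => ∃ d, ¬ P.Reg (lft π hTI q d) := by
  have h1 : ∀ a, lft π hTI q (algebraMap A _ a) = q (π a) := fun a =>
    DFunLike.congr_fun (res_lft π hTI q) a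
  funext P
  apply propext
  constructor
  · rintro ⟨c, hc⟩
    obtain ⟨a, rfl⟩ := hπ c
    exact ⟨algebraMap A _ a, by rwa [h1]⟩
  · rintro ⟨d, hd⟩
    obtain ⟨a, n, h⟩ := res_range (lft π hTI q) d
    rw [res_lft, AlgHom.comp_apply, AlgHom.comp_apply, pi_gprod π hTI, map_one, one_pow,
      mul_one] at h
    exact ⟨π a, by rwa [← h]⟩

theorem lft_gen (hπ : Function.Surjective π) (hTI : ∀ i, π (T i) = 0) {E : Type} [Field E]
    [Algebra B E] [Algebra K E] (q : C →ₐ[B] E) :
    Set.range (lft π hTI q) = Set.range q := by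
  ext x
  constructor
  · rintro ⟨d, rfl⟩
    obtain ⟨a, n, h⟩ := res_range (lft π hTI q) d
    rw [res_lft, AlgHom.comp_apply, AlgHom.comp_apply, pi_gprod π hTI, map_one, one_pow,
      mul_one] at h
    exact ⟨π a, h.symm⟩
  · rintro ⟨c, rfl⟩
    obtain ⟨a, rfl⟩ := hπ c
    exact ⟨algebraMap A _ a, DFunLike.congr_fun (res_lft π hTI q) a⟩

/-- **The subvarieties of the neighbourhood and of the closed subscheme.** -/
theorem all_iff (hB : Function.Injective (algebraMap B K)) (hπ : Function.Surjective π)
    (hTI : ∀ i, π (T i) = 0) (hT : Sep B (RingHom.ker π) T) :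
    AllLogGeneral B K (Localization.Away (gprod T)) ↔ AllLogGeneral B K C := by
  constructor
  · intro h E _ _ _ _ q n hgen hn htr
    rw [lft_bd π hπ hTI]
    exact h E (lft π hTI q) n (by rw [lft_gen π hπ hTI (K := K)]; exact hgen) hn htr
  · intro h E _ _ _ _ p n hgen hn htr
    by_cases hI : RingHom.ker π ≤ RingHom.ker (res p)
    · obtain ⟨q, rfl⟩ := exists_lft π hπ hTI p hI
      rw [← lft_bd π hπ hTI]
      exact h E q n (by rw [← lft_gen π hπ hTI (K := K)]; exact hgen) hn htr
    · have hne : ∀ l, res p (gf T l) ≠ 0 := fun l => (res_unit p l).ne_zero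
      have hne' := gf_all (P := fun a => res p a ≠ 0) hne
      refine lgt_sep hT hB hn htr (res p) hI ?_ hne' _ (fun P hP => ?_)
      · rw [eq_top_iff, ← hgen, IntermediateField.adjoin_le_iff]
        rintro _ ⟨d, rfl⟩
        obtain ⟨a, m, h1⟩ := res_range p d
        have hg : res p (gprod T) ≠ 0 := by
          rw [gprod, map_prod]
          exact Finset.prod_ne_zero_iff.2 fun l _ => hne l
        have h2 : p d = res p a / res p (gprod T) ^ m := by
          rw [eq_div_iff (pow_ne_zero _ hg), h1]
        rw [h2]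
        exact div_mem (IntermediateField.subset_adjoin _ _ (Set.mem_range_self a))
          (pow_mem (IntermediateField.subset_adjoin _ _ (Set.mem_range_self (gprod T))) _)
      · push Not at hP
        intro l h1 h2
        refine ord_of_reg P (hne' l h1 h2) (hP _) ?_
        refine gf_all (P := fun a => P.Reg (res p a)⁻¹) (fun l => ?_) l h1 h2
        have hu : IsUnit (algebraMap A (Localization.Away (gprod T)) (gf T l)) := by
          have h3 : IsUnit (algebraMap A (Localization.Away (gprod T)) (gprod T)) :=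
            IsLocalization.Away.algebraMap_isUnit _
          rw [gprod, map_prod] at h3
          exact (IsUnit.prod_univ_iff.1 h3) l
        obtain ⟨u, hu⟩ := hu
        have h4 : (res p (gf T l))⁻¹ = p ((u⁻¹ : (Localization.Away (gprod T))ˣ) :
            Localization.Away (gprod T)) := by
          apply inv_eq_of_mul_eq_one_right
          rw [res_apply, ← hu, ← map_mul, Units.mul_inv, map_one]
        rw [h4]
        exact hP _

/-- **The conjecture for the neighbourhood and for the closed subscheme.** -/
theorem lv_iff [IsDomain B] [CharZero B] [Algebra.FiniteType ℤ B]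
    (hB : Function.Injective (algebraMap B K)) (hπ : Function.Surjective π)
    (hTI : ∀ i, π (T i) = 0) (hT : Sep B (RingHom.ker π) T) :
    LangVojta B K (Localization.Away (gprod T)) ↔ LangVojta B K C := by
  unfold LangVojta
  rw [all_iff π hB hπ hTI hT]
  refine imp_congr_right fun _ => ⟨fun h => ?_, fun h => ?_⟩
  · exact Finite.of_injective _ (lft_inj π hπ hTI (Ω := B))
  · have h1 := points_sep hT (R := B) Function.injective_id
    have h2 : (Set.range (lft π hTI : (C →ₐ[B] B) → _)).Finite := Set.finite_range _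
    have h3 : {p : Localization.Away (gprod T) →ₐ[B] B | ¬ RingHom.ker π ≤
        RingHom.ker (res p)}.Finite := by
      refine Set.Finite.of_finite_image (h1.subset ?_) (f := res) (res_inj.injOn)
      rintro _ ⟨p, hp, rfl⟩
      exact ⟨gf_all (P := fun a => IsUnit (res p a)) fun l => res_unit p l, hp⟩
    have h4 : (Set.univ : Set (Localization.Away (gprod T) →ₐ[B] B)).Finite := by
      refine (h2.union h3).subset fun p _ => ?_
      by_cases hI : RingHom.ker π ≤ RingHom.ker (res p)
      · obtain ⟨q, hq⟩ := exists_lft π hπ hTI p hI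
        exact Or.inl ⟨q, hq⟩
      · exact Or.inr hI
    exact Set.finite_univ_iff.1 h4

end

end Pool.Agent.N111.QC
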